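import Pool.Agent.W829.UC.Stmts

/-!
# UC-A4 (MP_566bac_pr): sorting starts and exits
-/

set_option autoImplicit false
set_option linter.all false

open MeasureTheory Set
open Pool.Agent.H978R2

namespace Pool.Agent.W346.UCA4

open Pool.Agent.W829.UC

lemma sk_inj : Function.Injective sk := by
  rintro ⟨a, b⟩ ⟨c, d⟩ h
  unfold sk at h
  rw [toLex_inj, Prod.mk.injEq] at h
  simp only at h
  obtain ⟨h1, h2⟩ := h
  have h3 : b = d := by omega
  subst h3
  by_cases c1 : 0 ≤ b
  · rw [if_pos c1, if_pos c1] at h2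
    rw [Prod.mk.injEq]; omega
  · rw [if_neg c1, if_neg c1] at h2
    rw [Prod.mk.injEq]; omega

/-- type of an exit -/
def Ex (N M : ℤ) (t : ℤ × ℤ) : Prop :=
  t.2 = M + 1 ∨ t.2 = -M - 1 ∨ (t.1 = -N - 1 ∧ -M ≤ t.2 ∧ t.2 ≤ M)

lemma ek_inj {N M : ℤ} (hM : 0 ≤ M) {t t' : ℤ × ℤ} (h1 : Ex N M t) (h2 : Ex N M t')
    (h : ek M t = ek M t') : t = t' := by
  unfold Ex at h1 h2
  unfold ek at h
  apply Prod.ext
  all_goals
    rcases h1 with h1 | h1 | h1
    · rcases h2 with h2 | h2 | h2
      · rw [if_pos h1, if_pos h2, toLex_inj, Prod.mk.injEq] at h; omega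
      · rw [if_pos h1, if_neg (by omega), if_pos (by omega), toLex_inj, Prod.mk.injEq] at h; omega
      · rw [if_pos h1, if_neg (by omega), if_neg (by omega), toLex_inj, Prod.mk.injEq] at h; omega
    · rcases h2 with h2 | h2 | h2
      · rw [if_neg (by omega), if_pos (by omega), if_pos h2, toLex_inj, Prod.mk.injEq] at h; omega
      · rw [if_neg (by omega), if_pos (by omega), if_neg (by omega), if_pos (by omega), toLex_inj,
          Prod.mk.injEq] at h
        omega
      · rw [if_neg (by omega), if_pos (by omega), if_neg (by omega), if_neg (by omega), toLex_inj,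
          Prod.mk.injEq] at h
        omega
    · rcases h2 with h2 | h2 | h2
      · rw [if_neg (by omega), if_neg (by omega), if_pos h2, toLex_inj, Prod.mk.injEq] at h; omega
      · rw [if_neg (by omega), if_neg (by omega), if_neg (by omega), if_pos (by omega), toLex_inj,
          Prod.mk.injEq] at h
        omega
      · rw [if_neg (by omega), if_neg (by omega), if_neg (by omega), if_neg (by omega), toLex_inj,
          Prod.mk.injEq] at h
        omega

lemma Ex_of {g : ℤ → ℤ} {N R M : ℤ} (hf : Fits g N R M) {x t : ℤ × ℤ} {l : List (ℤ × ℤ)}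
    (h : Tr g N R M x t l) : Ex N M t := by
  obtain ⟨h1, h2, h3, h4, h5, h6⟩ := h
  have hlast : lat.Adj ((x :: l).getLast (by simp)) t := by
    have h1' : ((x :: l) ++ [t]).IsChain lat.Adj := by simpa using h1
    rw [List.isChain_append] at h1'
    exact h1'.2.2 _ (by rw [List.getLast?_eq_some_getLast (by simp)]; rfl) _ (by simp)
  have hmem : (x :: l).getLast (by simp) ∈ x :: l := List.getLast_mem _
  have hx : -N ≤ x.1 ∧ x.1 ≤ R ∧ -M ≤ x.2 ∧ x.2 ≤ M := by
    simpa [Rc, and_assoc] using h3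
  have hl : ∀ v ∈ l, ¬ g v.2 < v.1 ∧ -N ≤ v.1 ∧ v.1 ≤ R ∧ -M ≤ v.2 ∧ v.2 ≤ M := by
    intro v hv
    have := h4 v hv
    refine ⟨this.1, ?_⟩
    simpa [Rc, and_assoc] using this.2
  have hu : -N ≤ ((x :: l).getLast (by simp)).1 ∧ ((x :: l).getLast (by simp)).1 ≤ R ∧
      -M ≤ ((x :: l).getLast (by simp)).2 ∧ ((x :: l).getLast (by simp)).2 ≤ M := by
    rcases List.mem_cons.1 hmem with h | h
    · rw [h]; exact hx
    · exact (hl _ h).2
  unfold Ex
  generalize (x :: l).getLast (by simp) = u at *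
  rw [lat_adj] at hlast
  have h6' : ¬ (-N ≤ t.1 ∧ t.1 ≤ R ∧ -M ≤ t.2 ∧ t.2 ≤ M) := by
    intro hh; apply h6; simpa [Rc, and_assoc] using hh
  have h5' : ¬ g t.2 < t.1 := h5
  have := hf.2 t.2
  omega

theorem main : S_PL1 → S_A4 := by
  intro hPL g ha N R M hf G hG J hJ k X T hX hT hXr hTr hPS
  have trOf : ∀ {x t : ℤ × ℤ} {l : List (ℤ × ℤ)}, (x :: (l ++ [t])).IsChain G.Adj →
      (∀ v ∈ l, v ∈ J) → (x ∈ Rg g ∧ x ∈ Rc (-N) R (-M) M) →
      (t ∉ Rg g ∧ t ∉ Rc (-N) R (-M) M) → Tr g N R M x t l := by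
    intro x t l h1 h2 h3 h4
    refine ⟨h1.imp (fun a b hab => hG hab), h3.1, h3.2, fun v hv => ?_, h4.1, h4.2⟩
    exact ⟨(hJ v (h2 v hv)).2, (hJ v (h2 v hv)).1⟩
  have hEx : ∀ i, Ex N M (T i) := by
    intro i
    obtain ⟨l, h1, h2, h3⟩ := hPS
    exact Ex_of hf (trOf (h1 i) (h2 i).2 (hXr i) (hTr i))
  set a := Tuple.sort (fun i => sk (X i)) with hadef
  set b := Tuple.sort (fun i => ek M (T i)) with hbdef
  have ma : StrictMono ((fun i => sk (X i)) ∘ a) :=
    (Tuple.monotone_sort (fun i => sk (X i))).strictMono_of_injective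
      ((sk_inj.comp hX).comp a.injective)
  have ekT : Function.Injective (fun i => ek M (T i)) :=
    fun i j hij => hT (ek_inj hf.1 (hEx i) (hEx j) hij)
  have mb : StrictMono ((fun i => ek M (T i)) ∘ b) :=
    (Tuple.monotone_sort (fun i => ek M (T i))).strictMono_of_injective (ekT.comp b.injective)
  have uniq : ∀ π, PS G J (X ∘ a) (T ∘ b) π → π = 1 := by
    intro π hπ
    have hm : StrictMono π := by
      intro i j hij
      obtain ⟨l, h1, h2, h3⟩ := hπ
      have e1 := ma hij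
      have hne : i ≠ j := ne_of_lt hij
      have e2 := (hPL g ha N R M hf ((X ∘ a) i) ((T ∘ b) (π i)) ((X ∘ a) j) ((T ∘ b) (π j))
        (l i) (l j) (trOf (h1 i) (h2 i).2 (hXr _) (hTr _)) (trOf (h1 j) (h2 j).2 (hXr _) (hTr _))
        (fun h => hne (a.injective (hX h)))
        (fun h => hne (π.injective (b.injective (hT h)))) (h3 i j hne)).1 e1
      exact mb.lt_iff_lt.1 e2
    have : (π : Fin k → Fin k) = id := (StrictMono.range_inj hm strictMono_id).1 (by
      rw [π.surjective.range_eq, Set.range_id])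
    ext i
    rw [this]
    rfl
  have hPS0 : PS G J (X ∘ a) (T ∘ b) (a.trans b.symm) := by
    obtain ⟨l, h1, h2, h3⟩ := hPS
    refine ⟨fun i => l (a i), fun i => ?_, fun i => h2 (a i), fun i j hij =>
      h3 (a i) (a j) (fun h => hij (a.injective h))⟩
    have := h1 (a i)
    simpa using this
  have e0 := uniq _ hPS0
  refine ⟨X ∘ a, T ∘ b, hX.comp a.injective, hT.comp b.injective, a.surjective.range_comp _,
    b.surjective.range_comp _, ?_, uniq⟩
  rw [e0] at hPS0
  exact hPS0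

end Pool.Agent.W346.UCA4
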