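import Pool.Agent.W829.UC.Stmts

/-!
# UC-B5a (MP_566bac_pr): filling a half plane certificate
-/

set_option autoImplicit false
set_option linter.all false

open MeasureTheory Set
open Pool.Agent.H978R2

namespace Pool.Agent.W346.UCB5a

open Pool.Agent.W829.UC

lemma reach_list {α : Type*} {H : SimpleGraph α} {x y : α} (h : H.Reachable x y) :
    ∃ (γ : List α) (hγ : γ ≠ []), γ.IsChain H.Adj ∧ γ.head hγ = x ∧ γ.getLast hγ = y := by
  obtain ⟨p⟩ := h
  exact ⟨p.support, p.support_ne_nil, p.isChain_adj_support, p.head_support, p.getLast_support⟩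

lemma chain_mem {α : Type*} {R : α → α → Prop} {P : α → Prop} {l : List α} (hl : l.IsChain R)
    (h : ∀ a b, R a b → P b) (hne : l ≠ []) (h0 : P (l.head hne)) : ∀ v ∈ l, P v := by
  induction l with
  | nil => exact absurd rfl hne
  | cons a l ih =>
    intro v hv
    rcases List.mem_cons.1 hv with e | e
    · rw [e]; exact h0
    · cases l with
      | nil => simp at e
      | cons b l =>
        rw [List.isChain_cons_cons] at hl
        exact ih hl.2 (by simp) (h a b hl.1) v e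

lemma bdd_list (l : List (ℤ × ℤ)) : ∃ B : ℤ, ∀ v ∈ l, -B ≤ v.1 ∧ v.1 ≤ B ∧ -B ≤ v.2 ∧ v.2 ≤ B := by
  induction l with
  | nil => exact ⟨0, by simp⟩
  | cons a l ih =>
    obtain ⟨B, hB⟩ := ih
    refine ⟨max B (max |a.1| |a.2|), fun v hv => ?_⟩
    have h1 := le_abs_self a.1
    have h2 := neg_abs_le a.1
    have h3 := le_abs_self a.2
    have h4 := neg_abs_le a.2
    rcases List.mem_cons.1 hv with e | e
    · rw [e]; omega
    · have := hB v e
      omega

theorem main : S_B1 → S_PL2 → S_B5a := by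
  classical
  intro hB hPL A hA G hG W hW hcert i hi hcon
  obtain ⟨-, -, -, -, -, b6, -, b8⟩ := hB (ℤ × ℤ) (res G (Hf 1))
  set G1 := res G (Hf 1) with hG1
  set Z1 := Zw A ∩ Hf 1 with hZ1
  obtain ⟨W1, hW1, hc1, hz1, hcn1, hcn2⟩ := b8 Z1 W hcert
  have hiW : ((-i, 1) : ℤ × ℤ) ∈ W1 := hcn2 _ hcon
  -- the largest `j`
  set S : Finset ℤ := (W1.filter (fun v => v.2 = 1)).image (fun v => -v.1) with hS
  have memS : ∀ k : ℤ, k ∈ S ↔ ((-k, 1) : ℤ × ℤ) ∈ W1 := by
    intro k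
    rw [hS, Finset.mem_image]
    constructor
    · rintro ⟨v, hv, rfl⟩
      rw [Finset.mem_filter] at hv
      have : ((- -v.1, 1) : ℤ × ℤ) = v := Prod.ext (by simp) hv.2.symm
      rw [this]
      exact hv.1
    · intro h
      exact ⟨(-k, 1), Finset.mem_filter.2 ⟨h, rfl⟩, by simp⟩
  have hSne : S.Nonempty := ⟨i, (memS i).2 hiW⟩
  set j := S.max' hSne with hj
  have hjW : ((-j, 1) : ℤ × ℤ) ∈ W1 := (memS j).1 (S.max'_mem hSne)
  have hmax : ∀ k : ℤ, ((-k, 1) : ℤ × ℤ) ∈ W1 → k ≤ j := fun k hk => S.le_max' k ((memS k).2 hk)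
  have hij : i ≤ j := hmax i hiW
  -- the path `γ`
  obtain ⟨-, z, hzZ, hzW, hreach⟩ := hcn1 _ hjW
  obtain ⟨γ, hγ, hγc, hγh, hγl⟩ := reach_list hreach
  have hγW : ∀ v ∈ γ, v ∈ W1 := chain_mem hγc (fun a b hab => hab.2.2) hγ (by rw [hγh]; exact hjW)
  have hγr : ∀ v ∈ γ, 1 ≤ v.2 := by
    intro v hv
    have : v ∈ Hf 1 := hW v (hW1 (hγW v hv))
    simpa [Hf] using this
  have hγlat : γ.IsChain lat.Adj := hγc.imp (fun a b hab => hG hab.1.1)
  have hz1' : 1 ≤ z.2 := by simpa [Hf] using hzZ.2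
  have hz2 : A * (z.2 - 1) < z.1 := by
    have := hzZ.1.2
    rwa [abs_of_nonneg (show 0 ≤ z.2 by omega)] at this
  have hz3 : 1 ≤ z.1 := by nlinarith
  -- the set `E`
  set C : Set (ℤ × ℤ) := (↑W1 ∪ Z1)ᶜ with hC
  set E : Set (ℤ × ℤ) := {y | ∃ i' : ℤ, 0 ≤ i' ∧ i' ≤ j ∧ ((-i', 1) : ℤ × ℤ) ∉ W1 ∧
    (res G1 C).Reachable (-i', 1) y} with hE
  have startC : ∀ i' : ℤ, 0 ≤ i' → ((-i', 1) : ℤ × ℤ) ∉ W1 → ((-i', 1) : ℤ × ℤ) ∈ C := by
    intro i' h0 h1 h2
    rcases h2 with h2 | h2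
    · exact h1 h2
    · have h3 := h2.1.1
      have h4 := h2.1.2
      simp at h3 h4
      omega
  have key : ∀ y ∈ E, y ∈ C ∧ 1 ≤ y.2 ∧ ((∃ v ∈ γ, y.2 ≤ v.2) ∧ (∃ v ∈ γ, v.1 ≤ y.1) ∧
      (∃ v ∈ γ, y.1 < v.1) ∧ (y.2 = 1 → -j ≤ y.1)) := by
    rintro y ⟨i', h0, h1, h2, h3⟩
    have hlt : i' < j := by
      rcases lt_or_eq_of_le h1 with h | h
      · exact h
      · rw [h] at h2; exact absurd hjW h2
    obtain ⟨m, hm, hmc, hmh, hml⟩ := reach_list h3
    have hmC : ∀ v ∈ m, v ∈ C := chain_mem hmc (fun a b hab => hab.2.2) hm (by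
      rw [hmh]; exact startC i' h0 h2)
    have hmr : ∀ v ∈ m, v ∈ Hf 1 := chain_mem hmc (fun a b hab => hab.1.2.2) hm (by
      rw [hmh]; simp [Hf])
    have hmr' : ∀ v ∈ m, 1 ≤ v.2 := fun v hv => by simpa [Hf] using hmr v hv
    have hym : y ∈ m := by rw [← hml]; exact List.getLast_mem hm
    have hmlat : m.IsChain lat.Adj := hmc.imp (fun a b hab => hG hab.1.1)
    have := hPL γ m hγ hm i' j hγlat hmlat hγh h0 hlt hmh (by rw [hγl]; exact hz3) hγr
      (by
        intro v hv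
        refine ⟨hmr' v hv, fun hvγ => hmC v hv (Or.inl (hγW v hvγ)), ?_⟩
        rw [hγl]
        rintro ⟨k1, k2⟩
        apply hmC v hv
        right
        have k3 := hmr' v hv
        refine ⟨⟨by omega, ?_⟩, hmr v hv⟩
        rw [abs_of_nonneg (show 0 ≤ v.2 by omega)]
        nlinarith)
    rw [hml] at this
    exact ⟨hmC y hym, hmr' y hym, this⟩
  have hEfin : E.Finite := by
    obtain ⟨B, hBd⟩ := bdd_list γ
    refine Set.Finite.subset ((Set.finite_Icc (-B) B).prod (Set.finite_Icc 1 B)) ?_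
    intro y hy
    obtain ⟨-, h1, ⟨v1, hv1, k1⟩, ⟨v2, hv2, k2⟩, ⟨v3, hv3, k3⟩, -⟩ := key y hy
    have e1 := hBd v1 hv1
    have e2 := hBd v2 hv2
    have e3 := hBd v3 hv3
    refine ⟨⟨?_, ?_⟩, ⟨?_, ?_⟩⟩ <;> omega
  have memE : ∀ y, y ∈ hEfin.toFinset ↔ y ∈ E := fun y => hEfin.mem_toFinset
  refine ⟨W1 ∪ hEfin.toFinset, ?_, ?_, j, by omega, ?_, ?_⟩
  · intro x hx
    rw [Finset.mem_union, memE] at hx
    rcases hx with hx | hx
    · exact hW x (hW1 hx)
    · have := (key x hx).2.1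
      simpa [Hf] using this
  · apply b6 Z1 W1 hEfin.toFinset hc1
    intro x hx y hxy
    rw [memE] at hx
    by_cases h1 : y ∈ W1
    · exact Or.inr (Or.inl h1)
    · by_cases h2 : y ∈ Z1
      · exact Or.inr (Or.inr h2)
      · left
        rw [memE]
        have hxC := (key x hx).1
        obtain ⟨i', k0, k1, k2, k3⟩ := hx
        refine ⟨i', k0, k1, k2, k3.trans ?_⟩
        apply SimpleGraph.Adj.reachable
        refine ⟨hxy, hxC, ?_⟩
        rintro (h | h)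
        · exact h1 h
        · exact h2 h
  · intro i' h0 h1
    rw [Finset.mem_union, memE]
    by_cases h2 : ((-i', 1) : ℤ × ℤ) ∈ W1
    · exact Or.inl h2
    · exact Or.inr ⟨i', h0, h1, h2, SimpleGraph.Reachable.refl _⟩
  · intro i' h1 h2
    rw [Finset.mem_union, memE] at h2
    rcases h2 with h2 | h2
    · have := hmax i' h2
      omega
    · have := (key _ h2).2.2.2.2.2 rfl
      simp only at this
      omega

end Pool.Agent.W346.UCB5a
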