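import Pool.Agent.W829.UC.Stmts

/-!
# UC-C2 (MP_566bac_pr): cuts above the layer have linear cost
-/

set_option autoImplicit false
set_option linter.all false

open MeasureTheory Set
open Pool.Agent.H978R2

namespace Pool.Agent.W346.UCC2

open Pool.Agent.W829.UC

/-- the bad event of UC-C1 -/
def Df (κ : ℝ) (n : ℕ) (f : ℤ × ℤ) : Set (Sym2 (ℤ × ℤ) → Bool) :=
  {ω | ∃ F : Finset (Sym2 (ℤ × ℤ)), (F.card : ℝ) ≤ κ * n ∧ opF ω F ∈ armE f n}

lemma measurable_opF (F : Finset (Sym2 (ℤ × ℤ))) :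
    Measurable (fun ω : Sym2 (ℤ × ℤ) → Bool => opF ω F) := by
  classical
  rw [measurable_pi_iff]
  intro e
  unfold opF
  by_cases h : e ∈ F
  · simp only [h, if_true]; exact measurable_const
  · simp only [h, if_false]; exact measurable_pi_apply e

lemma meas_Df (κ : ℝ) (n : ℕ) (f : ℤ × ℤ) : MeasurableSet (Df κ n f) := by
  have : Df κ n f = ⋃ F : Finset (Sym2 (ℤ × ℤ)), ⋃ _ : (F.card : ℝ) ≤ κ * n,
      (fun ω => opF ω F) ⁻¹' (armE f n) := by
    ext ω
    simp [Df]
  rw [this]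
  exact MeasurableSet.iUnion fun F => MeasurableSet.iUnion fun _ =>
    measurable_opF F (meas_arm f n)

lemma dE_swp {F F' v v' : ℤ × ℤ} (h : lat.Adj F F') (he : dE F F' = s(v, v')) :
    dE (swp F) (swp F') = s(swp v, swp v') := by
  have hs : ∀ u : ℤ × ℤ, swp u = (u.2, u.1) := fun u => rfl
  have key : dE (swp F) (swp F') = Sym2.map swp (dE F F') := by
    rw [lat_adj] at h
    obtain ⟨a, b⟩ := F
    obtain ⟨c, d⟩ := F'
    simp only at h
    unfold dE
    rw [hs, hs]
    simp only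
    rcases h with ⟨rfl, h⟩ | ⟨rfl, h⟩
    · rw [if_neg (by omega), if_pos rfl, Sym2.map_mk]
      rfl
    · rw [if_pos rfl, if_neg (by omega), Sym2.map_mk]
      rfl
  rw [key, he, Sym2.map_mk]

lemma nb_of_adj {x y : ℤ × ℤ} (h : lat.Adj x y) : y ∈ nb x := by
  rw [lat_adj] at h
  unfold nb
  simp only [Finset.mem_insert, Finset.mem_singleton, Prod.ext_iff]
  omega

lemma det (A : ℤ) (hA : 1 ≤ A) (m : ℤ) (L : ℕ) (hL : 1 ≤ L) (ω : Sym2 (ℤ × ℤ) → Bool)
    (W : Finset (ℤ × ℤ)) (hW1 : ∀ x, x ∈ Ly A L → x ∉ Ly A 0 → x ∈ W)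
    (hW2 : ∀ x ∈ W, A * x.2 - x.1 ≤ m) :
    ∃ i : ℤ, -(L : ℤ) ≤ i ∧ i ≤ max 1 (m + 1) - 1 ∧ ∃ F : Finset (Sym2 (ℤ × ℤ)),
      F.card ≤ 4 * cst (og ω) (U1 A) W ∧ opF (dualc ω) F ∈ armE (-1, i) (L * A.toNat) := by
  classical
  set n : ℤ := L * A with hn
  have hL' : (1 : ℤ) ≤ L := by exact_mod_cast hL
  have hn1 : 1 ≤ n := by rw [hn]; nlinarith
  have hnn : ((L * A.toNat : ℕ) : ℤ) = n := by
    push_cast
    rw [Int.toNat_of_nonneg (by omega)]
  set b1 := max 1 (m + 1) with hb1
  have hb1a : 1 ≤ b1 := le_max_left _ _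
  have hb1b : m + 1 ≤ b1 := le_max_right _ _
  set Wt : Set (ℤ × ℤ) := {v | (v.2, v.1) ∈ W ∨ A * (v.1 - 1) < v.2} with hWt
  have hLf : ∀ y, -n ≤ y → y ≤ -1 → (-(L : ℤ), y) ∈ Wt := by
    intro y h1 h2
    right
    show A * (-(L : ℤ) - 1) < y
    have : A * (-(L : ℤ) - 1) = -n - A := by rw [hn]; ring
    omega
  have hRt : ∀ y, -n ≤ y → y ≤ -1 → (b1, y) ∉ Wt := by
    rintro y h1 h2 (h3 | h3)
    · have := hW2 _ h3
      simp only at this
      nlinarith
    · simp only at h3
      nlinarith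
  obtain ⟨i, j, h1, h2, h3⟩ := dual_exists Wt (-(L : ℤ)) b1 (-n) (-1) (by omega) (by omega) hLf hRt
  -- the costing vertices
  set cs : Finset (ℤ × ℤ) := W.filter (fun x => ∃ y, y ∈ U1 A ∧ (og ω).Adj x y ∧ y ∉ W) with hcs
  have hcst : cst (og ω) (U1 A) W = cs.card := by
    unfold cst
    congr 1
  set Fp : Finset (Sym2 (ℤ × ℤ)) := cs.biUnion (fun v => (nb v).image (fun v' => s(v, v')))
    with hFp
  have hFpc : Fp.card ≤ 4 * cs.card := by
    rw [mul_comm]
    refine Finset.card_biUnion_le_card_mul _ _ _ fun v _ => ?_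
    exact Finset.card_image_le.trans Finset.card_le_four
  set F : Finset (Sym2 (ℤ × ℤ)) := Fp.preimage dM dM_inj.injOn with hF
  have hFc : F.card ≤ Fp.card :=
    Finset.card_le_card_of_injOn dM (fun e he => Finset.mem_preimage.1 he) dM_inj.injOn
  refine ⟨i, h2.1, h2.2, F, by rw [hcst]; omega, ?_⟩
  have hreach : (openG (latR univ) (opF (dualc ω) F)).Reachable (-1, i) (-n - 1, j) := by
    rw [SimpleGraph.reachable_iff_reflTransGen]
    have hstep : ∀ G G' : ℤ × ℤ, SS Wt (-(L : ℤ)) b1 (-n) (-1) G G' →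
        (openG (latR univ) (opF (dualc ω) F)).Adj (swp G) (swp G') := ?_
    · exact Relation.ReflTransGen.lift (fun u : ℤ × ℤ => swp u) hstep _ _ h1
    intro G G' hG
    obtain ⟨g1, _, _, v, v', g2, g3, g4, g5, g6, g7⟩ := hG
    have g1' : lat.Adj (swp G) (swp G') := (swp_adj G G').2 g1
    refine ⟨⟨g1', trivial, trivial⟩, ?_⟩
    have e1 : dM s(swp G, swp G') = s(swp v, swp v') := by
      rw [dM_adj g1']
      exact dE_swp g1 g2
    have g3' : lat.Adj (swp v) (swp v') := (swp_adj v v').2 g3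
    by_cases hω : ω s(swp v, swp v') = true
    · have hmem : s(swp G, swp G') ∈ F := by
        rw [hF, Finset.mem_preimage, e1, hFp, Finset.mem_biUnion]
        refine ⟨swp v, ?_, Finset.mem_image.2 ⟨swp v', nb_of_adj g3', rfl⟩⟩
        have hv'U : swp v' ∈ U1 A := by
          by_contra hc
          apply g7
          right
          have : ¬ (v'.2 ≤ A * (v'.1 - 1)) := hc
          show A * (v'.1 - 1) < v'.2
          omega
        have hv'W : swp v' ∉ W := fun hc => g7 (Or.inl hc)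
        have hvW : swp v ∈ W := by
          rcases g6 with g6 | g6
          · exact g6
          · have k1 : A * (v.1 - 1) < v.2 := g6
            have k2 : v'.2 ≤ A * (v'.1 - 1) := hv'U
            have k3 : (-(L : ℤ) ≤ v.1 ∧ v.1 ≤ b1) ∧ (-n ≤ v.2 ∧ v.2 ≤ -1) := g4
            apply hW1
            · show A * (v.1 - 1) < v.2 ∧ v.2 ≤ A * v.1 ∧ -((L : ℤ) * A) ≤ v.2
              refine ⟨k1, ?_, by rw [← hn]; exact k3.2.1⟩
              rw [lat_adj] at g3
              rcases g3 with ⟨c1, c2 | c2⟩ | ⟨c1, c2 | c2⟩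
              · rw [← c1] at k2; nlinarith
              · rw [← c1] at k2; nlinarith
              · rw [show v'.1 = v.1 - 1 by omega] at k2
                nlinarith
              · rw [show v'.1 = v.1 + 1 by omega] at k2
                nlinarith
            · intro hc
              have : -(((0 : ℕ) : ℤ) * A) ≤ v.2 := hc.2.2
              simp at this
              omega
        rw [hcs, Finset.mem_filter]
        exact ⟨hvW, swp v', hv'U, ⟨g3', hω⟩, hv'W⟩
      unfold opF
      rw [if_pos hmem]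
    · have hd : dualc ω s(swp G, swp G') = true := by
        unfold dualc
        rw [e1]
        simpa using hω
      unfold opF
      by_cases hmem : s(swp G, swp G') ∈ F
      · rw [if_pos hmem]
      · rw [if_neg hmem]; exact hd
  refine arm_of_reach hreach ?_
  rw [mem_Far]
  left
  rw [hnn]
  show -n - 1 ≤ -1 - n
  omega

theorem main : S_C1 → S_C2 := by
  intro hC1 p hp hph
  have h1 : ((1 - p : NNReal) : ℝ) < 1 / 2 := by
    rw [NNReal.coe_sub hp]; push_cast; linarith
  obtain ⟨κ, K, c, hκ, hK, hc, hd⟩ := hC1 (1 - p) tsub_le_self h1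
  refine ⟨κ / 8, by positivity, fun A hA m ε hε => ?_⟩
  -- choice of `L0`
  have hlim : Filter.Tendsto (fun L : ℕ => ((L : ℝ) + (|(m : ℝ)| + 2)) * (K * Real.exp (-c * L)))
      Filter.atTop (nhds 0) := by
    have t1 : Filter.Tendsto (fun x : ℝ => x ^ 1 * Real.exp (-c * x)) Filter.atTop (nhds 0) := by
      have := Real.tendsto_pow_mul_exp_neg_atTop_nhds_zero 1
      have h2 := (this.comp (Filter.tendsto_id.const_mul_atTop hc)).const_mul (1 / c)
      rw [mul_zero] at h2
      refine h2.congr fun x => ?_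
      simp only [Function.comp, id, pow_one]
      rw [show -(c * x) = -c * x by ring]
      field_simp
    have t2 : Filter.Tendsto (fun x : ℝ => Real.exp (-c * x)) Filter.atTop (nhds 0) := by
      have := Real.tendsto_exp_neg_atTop_nhds_zero
      refine (this.comp (Filter.tendsto_id.const_mul_atTop hc)).congr fun x => ?_
      simp only [Function.comp, id]
      congr 1
      ring
    have t3 := ((t1.const_mul K).add (t2.const_mul ((|(m : ℝ)| + 2) * K))).comp
      tendsto_natCast_atTop_atTop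
    rw [mul_zero, mul_zero, add_zero] at t3
    refine t3.congr fun L => ?_
    simp only [Function.comp]
    ring
  obtain ⟨L0, hL0⟩ := Filter.eventually_atTop.1
    ((tendsto_order.1 hlim).2 ε hε)
  refine ⟨max L0 1, fun L hL => ?_⟩
  have hL1 : 1 ≤ L := (le_max_right _ _).trans hL
  have hLL : L0 ≤ L := (le_max_left _ _).trans hL
  set n : ℕ := L * A.toNat with hn
  have hA1 : 1 ≤ A.toNat := by omega
  have hAr : ((A.toNat : ℕ) : ℝ) = (A : ℝ) := by
    have : ((A.toNat : ℕ) : ℤ) = A := Int.toNat_of_nonneg (by omega)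
    exact_mod_cast this
  have hnr : (n : ℝ) = (L : ℝ) * (A : ℝ) := by rw [hn, ← hAr]; push_cast; ring
  have hLn : (L : ℝ) ≤ n := by
    have : L ≤ n := by rw [hn]; exact Nat.le_mul_of_pos_right L hA1
    exact_mod_cast this
  set I : Finset ℤ := Finset.Icc (-(L : ℤ)) (max 1 (m + 1) - 1) with hI
  set B : Set (Sym2 (ℤ × ℤ) → Bool) := ⋃ i ∈ I, {ω | dualc ω ∈ Df κ n (-1, i)} with hB
  have mB : MeasurableSet B := by
    refine Finset.measurableSet_biUnion _ fun i _ => ?_
    exact measurable_dualc (meas_Df κ n (-1, i))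
  have hBm : (mu p hp).real B ≤ ε := by
    refine (measureReal_biUnion_finset_le _ _).trans ?_
    have h2 : ∀ i ∈ I, (mu p hp).real {ω | dualc ω ∈ Df κ n (-1, i)} ≤ K * Real.exp (-c * L) := by
      intro i _
      have h3 : (mu p hp).real {ω | dualc ω ∈ Df κ n (-1, i)} =
          (mu (1 - p) tsub_le_self).real (Df κ n (-1, i)) := by
        unfold Measure.real
        rw [bm_dual p hp (meas_Df _ _ _)]
      rw [h3]
      refine (hd (-1, i) n).trans ?_
      refine mul_le_mul_of_nonneg_left ?_ hK.le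
      rw [Real.exp_le_exp]
      nlinarith
    refine (Finset.sum_le_sum h2).trans ?_
    rw [Finset.sum_const, nsmul_eq_mul]
    have h4 : (I.card : ℝ) ≤ (L : ℝ) + (|(m : ℝ)| + 2) := by
      rw [hI, Int.card_Icc]
      have h5 : ((max 1 (m + 1) - 1 + 1 - -(L : ℤ)).toNat : ℤ) ≤ L + (|m| + 2) := by
        have := le_abs_self m
        have := neg_abs_le m
        omega
      have : ((((max 1 (m + 1) - 1 + 1 - -(L : ℤ)).toNat : ℕ) : ℤ) : ℝ) ≤
          ((L + (|m| + 2) : ℤ) : ℝ) := by exact_mod_cast h5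
      push_cast at this ⊢
      exact this
    have h6 := (hL0 L hLL).le
    have h7 : 0 ≤ K * Real.exp (-c * L) := by positivity
    exact (mul_le_mul_of_nonneg_right h4 h7).trans h6
  refine ⟨Bᶜ, mB.compl, ?_, ?_⟩
  · rw [probReal_compl_eq_one_sub mB]
    linarith
  · intro ω hω W hW1 hW2
    by_contra hcon
    push Not at hcon
    obtain ⟨i, hi1, hi2, F, hF1, hF2⟩ := det A hA m L hL1 ω W hW1 hW2
    apply hω
    rw [hB]
    simp only [mem_iUnion, exists_prop]
    refine ⟨i, by rw [hI, Finset.mem_Icc]; exact ⟨hi1, hi2⟩, F, ?_, hF2⟩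
    have h8 : (F.card : ℝ) ≤ 4 * (cst (og ω) (U1 A) W : ℝ) := by exact_mod_cast hF1
    rw [hnr]
    have h9 : 0 ≤ κ * ((L : ℝ) * (A : ℝ)) := by
      rw [← hnr]; positivity
    nlinarith

end Pool.Agent.W346.UCC2
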