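import Pool.Agent.W829.UC.Stmts

/-!
# UC-PL1 (MP_566bac_pr): order of disjoint planar paths
-/

set_option autoImplicit false
set_option linter.all false

open MeasureTheory Set
open Pool.Agent.H978R2

namespace Pool.Agent.W346.UCPL1

open Pool.Agent.W829.UC

/-- vertical steps between the heights `y` and `y + 1`, strictly to the left of `x` -/
def VL (x y : ℤ) (u u' : ℤ × ℤ) : Prop :=
  u.1 = u'.1 ∧ u.1 < x ∧ ((u.2 = y ∧ u'.2 = y + 1) ∨ (u.2 = y + 1 ∧ u'.2 = y))

lemma VL_horiz {l : List (ℤ × ℤ)} (hl : l.IsChain lat.Adj) {x y : ℤ} (h : (x, y) ∉ l) :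
    cr (VL (x + 1) y) l = cr (VL x y) l := by
  refine cr_congr hl fun u u' hu hu' hadj => ?_
  unfold VL
  constructor
  · rintro ⟨h1, h2, h3⟩
    refine ⟨h1, ?_, h3⟩
    by_contra h4
    have h5 : u.1 = x := by omega
    rcases h3 with ⟨h3, _⟩ | ⟨_, h3⟩
    · exact h (by rw [← h5, ← h3]; exact hu)
    · exact h (by rw [← h5, ← h3, h1]; exact hu')
  · rintro ⟨h1, h2, h3⟩
    exact ⟨h1, by omega, h3⟩

lemma VL_vert {l : List (ℤ × ℤ)} (hl : l.IsChain lat.Adj) {x y : ℤ} (h : (x, y) ∉ l)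
    (hne : l ≠ []) :
    cr (VL x (y - 1)) l + cr (VL x y) l =
      ind {w : ℤ × ℤ | w.1 < x ∧ w.2 = y} (l.head hne) +
        ind {w : ℤ × ℤ | w.1 < x ∧ w.2 = y} (l.getLast hne) := by
  rw [cr_add (P'' := fun u u' => ¬ (u ∈ {w : ℤ × ℤ | w.1 < x ∧ w.2 = y} ↔
    u' ∈ {w : ℤ × ℤ | w.1 < x ∧ w.2 = y})) hl]
  · exact cr_bd (Q := {w : ℤ × ℤ | w.1 < x ∧ w.2 = y}) hl (fun _ _ _ _ _ => Iff.rfl) hne
  · intro u u' hu hu' hadj
    rw [lat_adj] at hadj
    have e1' : ¬ (u.1 = x ∧ u.2 = y) := fun hh => h (by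
      have : u = (x, y) := Prod.ext hh.1 hh.2
      exact this ▸ hu)
    have e2' : ¬ (u'.1 = x ∧ u'.2 = y) := fun hh => h (by
      have : u' = (x, y) := Prod.ext hh.1 hh.2
      exact this ▸ hu')
    simp only [VL, Set.mem_setOf_eq]
    obtain ⟨a, b⟩ := u
    obtain ⟨c, d⟩ := u'
    simp only at *
    omega

/-- data of one path -/
structure PD (g : ℤ → ℤ) (N R M : ℤ) (x t : ℤ × ℤ) (l : List (ℤ × ℤ)) : Prop where
  ch : (x :: (l ++ [t])).IsChain lat.Adj
  xr : g x.2 < x.1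
  xb : -N ≤ x.1 ∧ x.1 ≤ R ∧ -M ≤ x.2 ∧ x.2 ≤ M
  lo : ∀ v ∈ l, ¬ g v.2 < v.1 ∧ -N ≤ v.1 ∧ v.1 ≤ R ∧ -M ≤ v.2 ∧ v.2 ≤ M
  tr : ¬ g t.2 < t.1
  tc : t.2 = M + 1 ∨ t.2 = -M - 1 ∨ (t.1 = -N - 1 ∧ -M ≤ t.2 ∧ t.2 ≤ M)
  lt : ∃ u ∈ x :: l, u = (x :: l).getLast (by simp) ∧ lat.Adj u t
  fs : ∃ u, lat.Adj x u ∧ ¬ g u.2 < u.1

lemma PD.of {g : ℤ → ℤ} {N R M : ℤ} (hf : Fits g N R M) {x t : ℤ × ℤ} {l : List (ℤ × ℤ)}
    (h : Tr g N R M x t l) : PD g N R M x t l := by
  obtain ⟨h1, h2, h3, h4, h5, h6⟩ := h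
  have hlast : lat.Adj ((x :: l).getLast (by simp)) t := by
    have h1' : ((x :: l) ++ [t]).IsChain lat.Adj := by simpa using h1
    rw [List.isChain_append] at h1'
    exact h1'.2.2 _ (by rw [List.getLast?_eq_some_getLast (by simp)]; rfl) _ (by simp)
  have hmem : (x :: l).getLast (by simp) ∈ x :: l := List.getLast_mem _
  have hx : -N ≤ x.1 ∧ x.1 ≤ R ∧ -M ≤ x.2 ∧ x.2 ≤ M := by
    simpa [Rc, and_assoc] using h3
  have hl : ∀ v ∈ l, ¬ g v.2 < v.1 ∧ -N ≤ v.1 ∧ v.1 ≤ R ∧ -M ≤ v.2 ∧ v.2 ≤ M := by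
    intro v hv
    have := h4 v hv
    refine ⟨this.1, ?_⟩
    simpa [Rc, and_assoc] using this.2
  have hu : -N ≤ ((x :: l).getLast (by simp)).1 ∧ ((x :: l).getLast (by simp)).1 ≤ R ∧
      -M ≤ ((x :: l).getLast (by simp)).2 ∧ ((x :: l).getLast (by simp)).2 ≤ M := by
    rcases List.mem_cons.1 hmem with h | h
    · rw [h]; exact hx
    · exact (hl _ h).2
  refine ⟨h1, h2, hx, hl, h5, ?_, ⟨_, hmem, rfl, hlast⟩, ?_⟩
  · generalize (x :: l).getLast (by simp) = u at *
    rw [lat_adj] at hlast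
    have h6' : ¬ (-N ≤ t.1 ∧ t.1 ≤ R ∧ -M ≤ t.2 ∧ t.2 ≤ M) := by
      intro hh; apply h6; simpa [Rc, and_assoc] using hh
    have h5' : ¬ g t.2 < t.1 := h5
    have := hf.2 t.2
    omega
  · cases l with
    | nil =>
      refine ⟨t, ?_, h5⟩
      simpa using h1
    | cons b l =>
      refine ⟨b, ?_, (h4 b (by simp)).1⟩
      simp only [List.cons_append, List.isChain_cons_cons] at h1
      exact h1.1

open Classical in
/-- bracket -/
noncomputable def br (p : Prop) : ZMod 2 := if p then 1 else 0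

lemma ind_br {Q : Set (ℤ × ℤ)} {v : ℤ × ℤ} : ind Q v = br (v ∈ Q) := rfl

lemma br_congr {p q : Prop} (h : p ↔ q) : br p = br q := by
  rw [propext h]

lemma br_true {p : Prop} (h : p) : br p = 1 := by simp [br, h]
lemma br_false {p : Prop} (h : ¬ p) : br p = 0 := by simp [br, h]
lemma br_self (p : Prop) : br p + br p = 0 := two_zmod _

section main

variable {g : ℤ → ℤ} (ha : Adm g) {N R M : ℤ} (hf : Fits g N R M) {x t x' t' : ℤ × ℤ}
  {l l' : List (ℤ × ℤ)} (hQ : PD g N R M x t l) (hP : PD g N R M x' t' l')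
  (hx : x ≠ x') (ht : t ≠ t') (hd : l.Disjoint l')

include ha hf hQ hP hx ht hd

/-- the members of the second path -/
lemma memP {v : ℤ × ℤ} (hv : v ∈ x' :: (l' ++ [t'])) :
    v = x' ∨ v = t' ∨ (v ∈ l' ∧ ¬ g v.2 < v.1 ∧ -N ≤ v.1 ∧ v.1 ≤ R ∧ -M ≤ v.2 ∧ v.2 ≤ M) := by
  simp only [List.mem_cons, List.mem_append, List.mem_nil_iff, or_false] at hv
  rcases hv with h | h | h
  · exact Or.inl h
  · exact Or.inr (Or.inr ⟨h, hP.lo v h⟩)
  · exact Or.inr (Or.inl h)

lemma rg_notP {v : ℤ × ℤ} (hv : g v.2 < v.1) (hn : v ≠ x') : v ∉ x' :: (l' ++ [t']) := by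
  intro h
  rcases memP ha hf hQ hP hx ht hd h with h | h | ⟨_, h, _⟩
  · exact hn h
  · rw [h] at hv; exact hP.tr hv
  · exact h hv

lemma Q_notP {v : ℤ × ℤ} (hv : v ∈ x :: l) : v ∉ x' :: (l' ++ [t']) := by
  rcases List.mem_cons.1 hv with h | h
  · exact rg_notP ha hf hQ hP hx ht hd (by rw [h]; exact hQ.xr) (by rw [h]; exact hx)
  · intro h'
    have h1 := hQ.lo v h
    rcases memP ha hf hQ hP hx ht hd h' with h2 | h2 | ⟨h2, _⟩
    · rw [h2] at h1; exact h1.1 hP.xr
    · have := hP.tc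
      rw [h2] at h1
      omega
    · exact hd h h2

lemma Q_box {v : ℤ × ℤ} (hv : v ∈ x :: l) : -N ≤ v.1 ∧ v.1 ≤ R ∧ -M ≤ v.2 ∧ v.2 ≤ M := by
  rcases List.mem_cons.1 hv with h | h
  · rw [h]; exact hQ.xb
  · exact (hQ.lo v h).2

lemma vert {a y : ℤ} (h : (a, y) ∉ x' :: (l' ++ [t'])) :
    cr (VL a (y - 1)) (x' :: (l' ++ [t'])) + cr (VL a y) (x' :: (l' ++ [t'])) =
      br (x'.1 < a ∧ x'.2 = y) + br (t'.1 < a ∧ t'.2 = y) := by
  rw [VL_vert hP.ch h (by simp)]
  have e : (x' :: (l' ++ [t'])).getLast (by simp) = t' := by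
    rw [List.getLast_cons (by simp), List.getLast_append_singleton]
  rw [e]
  rfl

/-- the potential -/
noncomputable def pot (M : ℤ) (x' t' : ℤ × ℤ) (l' : List (ℤ × ℤ)) (v : ℤ × ℤ) : ZMod 2 :=
  cr (VL v.1 v.2) (x' :: (l' ++ [t'])) + br (x'.2 < 0 ∧ v.2 = x'.2 ∧ x'.1 < v.1) +
    br (-M ≤ t'.2 ∧ t'.2 ≤ M ∧ t'.2 ≤ v.2)

omit ha hf hQ hP hx ht hd in
lemma pot_def (M : ℤ) (x' t' : ℤ × ℤ) (l' : List (ℤ × ℤ)) (v : ℤ × ℤ) :
    pot M x' t' l' v = cr (VL v.1 v.2) (x' :: (l' ++ [t'])) +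
      br (x'.2 < 0 ∧ v.2 = x'.2 ∧ x'.1 < v.1) + br (-M ≤ t'.2 ∧ t'.2 ≤ M ∧ t'.2 ≤ v.2) := rfl

/-- horizontal step -/
lemma pot_h {a y : ℤ} (h1 : (a, y) ∉ x' :: (l' ++ [t'])) :
    pot M x' t' l' (a + 1, y) = pot M x' t' l' (a, y) := by
  have hne : ¬ (x'.1 = a ∧ x'.2 = y) := by
    intro hh
    apply h1
    have : x' = (a, y) := Prod.ext hh.1 hh.2
    rw [← this]
    simp
  rw [pot_def, pot_def, VL_horiz hP.ch h1, br_congr (show (x'.2 < 0 ∧ (a + 1, y).2 = x'.2 ∧
    x'.1 < (a + 1, y).1) ↔ (x'.2 < 0 ∧ (a, y).2 = x'.2 ∧ x'.1 < (a, y).1) by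
      simp only; omega)]

/-- vertical step -/
lemma pot_v {a y : ℤ} (h1 : (a, y) ∉ x' :: (l' ++ [t'])) (h2 : -N ≤ a ∧ -M ≤ y ∧ y ≤ M)
    (h3 : ¬ g y < a ∨ ¬ g (y - 1) < a) :
    pot M x' t' l' (a, y) = pot M x' t' l' (a, y - 1) := by
  have hv := vert ha hf hQ hP hx ht hd h1
  have hxr := hP.xr
  have htc := hP.tc
  obtain ⟨a1, a2, a3, a4⟩ := ha
  have e1 : br (t'.1 < a ∧ t'.2 = y) = br (-M ≤ t'.2 ∧ t'.2 ≤ M ∧ t'.2 ≤ y) +
      br (-M ≤ t'.2 ∧ t'.2 ≤ M ∧ t'.2 ≤ y - 1) := by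
    by_cases c1 : t'.2 = y
    · rw [br_true (by omega), br_true (by omega), br_false (by omega), add_zero]
    · rw [br_false (by omega), br_congr (show (-M ≤ t'.2 ∧ t'.2 ≤ M ∧ t'.2 ≤ y) ↔
        (-M ≤ t'.2 ∧ t'.2 ≤ M ∧ t'.2 ≤ y - 1) by omega), br_self]
  have e2 : br (x'.1 < a ∧ x'.2 = y) = br (x'.2 < 0 ∧ y = x'.2 ∧ x'.1 < a) +
      br (x'.2 < 0 ∧ y - 1 = x'.2 ∧ x'.1 < a) := by
    have b1 : ¬ (x'.2 < 0 ∧ y - 1 = x'.2 ∧ x'.1 < a) := by
      rintro ⟨c1, c2, c3⟩
      have := a2 (y - 1) (by omega)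
      rw [sub_add_cancel] at this
      rw [← c2] at hxr
      omega
    rw [br_false b1, add_zero]
    apply br_congr
    constructor
    · rintro ⟨c1, c2⟩
      refine ⟨?_, c2.symm, c1⟩
      by_contra c3
      rw [c2] at hxr
      rcases eq_or_lt_of_le (show 0 ≤ y by omega) with c4 | c4
      · subst c4
        rw [zero_sub] at h3
        omega
      · have := a1 y (by omega)
        omega
    · rintro ⟨c1, c2, c3⟩
      exact ⟨c3, c2.symm⟩
  rw [e1, e2] at hv
  rw [pot_def, pot_def]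
  simp only
  have z1 := two_zmod (cr (VL a (y - 1)) (x' :: (l' ++ [t'])))
  have z2 := br_self (x'.2 < 0 ∧ y = x'.2 ∧ x'.1 < a)
  have z3 := br_self (-M ≤ t'.2 ∧ t'.2 ≤ M ∧ t'.2 ≤ y)
  linear_combination hv - z1 + z2 + z3

/-- the potential is constant along the first path -/
lemma pot_const {u : ℤ × ℤ} (hu : u = (x :: l).getLast (by simp)) :
    pot M x' t' l' x = pot M x' t' l' u := by
  have hch : (x :: l).IsChain lat.Adj := by
    have h1' : ((x :: l) ++ [t]).IsChain lat.Adj := by simpa using hQ.ch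
    rw [List.isChain_append] at h1'
    exact h1'.1
  have key := const_of_chain (pot M x' t' l') hch (fun a b hma hmb hab => by
    have na := Q_notP ha hf hQ hP hx ht hd hma
    have nb := Q_notP ha hf hQ hP hx ht hd hmb
    have ba := Q_box ha hf hQ hP hx ht hd hma
    have bb := Q_box ha hf hQ hP hx ht hd hmb
    have out : ¬ g a.2 < a.1 ∨ ¬ g b.2 < b.1 := by
      rcases List.mem_cons.1 hma with h | h
      · rcases List.mem_cons.1 hmb with h' | h'
        · exact absurd hab (by rw [h, h']; exact SimpleGraph.irrefl _)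
        · exact Or.inr (hQ.lo b h').1
      · exact Or.inl (hQ.lo a h).1
    obtain ⟨a1, a2⟩ := a
    obtain ⟨b1, b2⟩ := b
    rw [lat_adj] at hab
    simp only at hab ba bb out
    rcases hab with ⟨rfl, rfl | rfl⟩ | ⟨rfl, rfl | rfl⟩
    · have := pot_v ha hf hQ hP hx ht hd (a := a1) (y := b2 + 1) na (by omega)
        (by rw [add_sub_cancel_right]; exact out)
      rw [add_sub_cancel_right] at this
      exact this
    · have := pot_v ha hf hQ hP hx ht hd (a := a1) (y := a2 + 1) nb (by omega)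
        (by rw [add_sub_cancel_right]; exact out.symm)
      rw [add_sub_cancel_right] at this
      exact this.symm
    · exact pot_h ha hf hQ hP hx ht hd nb
    · exact (pot_h ha hf hQ hP hx ht hd na).symm) (by simp)
  rw [hu]
  exact key

/-- far to the right -/
lemma far {a b y : ℤ} (hab : a ≤ b) (h : g y < a) (hn : ¬ (x'.2 = y ∧ a ≤ x'.1)) :
    cr (VL b y) (x' :: (l' ++ [t'])) = cr (VL a y) (x' :: (l' ++ [t'])) := by
  obtain ⟨k, rfl⟩ := Int.le.dest hab
  clear hab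
  induction k with
  | zero => simp
  | succ k ih =>
    rw [← ih]
    have := VL_horiz hP.ch (x := a + k) (y := y) (rg_notP ha hf hQ hP hx ht hd
      (show g y < a + k by omega) (by
        intro hh
        apply hn
        rw [← hh]
        constructor
        · rfl
        · show a ≤ a + k
          omega))
    rw [← this]
    congr 2
    push_cast
    ring

lemma far_val {a y : ℤ} (h : g y < a) (hn : ¬ (x'.2 = y ∧ a ≤ x'.1)) :
    cr (VL a y) (x' :: (l' ++ [t'])) = br (x'.2 ≤ y) + br (t'.2 ≤ y) := by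
  have hb : ∃ b, a ≤ b ∧ R < b ∧ t'.1 < b := ⟨max a (max (R + 1) (t'.1 + 1)), by omega⟩
  obtain ⟨b, h1, h2, h3⟩ := hb
  rw [← far ha hf hQ hP hx ht hd h1 h hn]
  have hm := fun v => memP ha hf hQ hP hx ht hd (v := v)
  rw [cr_bd (Q := {w : ℤ × ℤ | w.2 ≤ y}) hP.ch ?_ (by simp)]
  · have e : (x' :: (l' ++ [t'])).getLast (by simp) = t' := by
      rw [List.getLast_cons (by simp), List.getLast_append_singleton]
    rw [e]
    rfl
  · intro u u' hu hu' hadj
    have i1 : u.1 < b := by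
      rcases hm u hu with h | h | h
      · rw [h]; have := hP.xb; omega
      · rw [h]; exact h3
      · omega
    have i2 : u'.1 < b := by
      rcases hm u' hu' with h | h | h
      · rw [h]; have := hP.xb; omega
      · rw [h]; exact h3
      · omega
    rw [lat_adj] at hadj
    simp only [VL, Set.mem_setOf_eq]
    omega

/-- a step of the second path with an end point outside the box ends at `t'` -/
lemma top_val {a : ℤ} (h : -N ≤ a) :
    cr (VL a M) (x' :: (l' ++ [t'])) = br (t'.2 = M + 1 ∧ t'.1 < a) := by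
  have hm := fun v => memP ha hf hQ hP hx ht hd (v := v)
  have hxb := hP.xb
  have htc := hP.tc
  rw [cr_bd (Q := {w : ℤ × ℤ | w.2 = M + 1 ∧ w.1 < a}) hP.ch ?_ (by simp)]
  · have e : (x' :: (l' ++ [t'])).getLast (by simp) = t' := by
      rw [List.getLast_cons (by simp), List.getLast_append_singleton]
    rw [e, List.head_cons, ind_not_mem (by simp only [mem_setOf_eq]; omega), zero_add]
    rfl
  · intro u u' hu hu' hadj
    have i1 : (u.1 = t'.1 ∧ u.2 = t'.2) ∨ (-N ≤ u.1 ∧ u.1 ≤ R ∧ -M ≤ u.2 ∧ u.2 ≤ M) := by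
      rcases hm u hu with h | h | h
      · rw [h]; right; exact hxb
      · rw [h]; left; exact ⟨rfl, rfl⟩
      · right; exact h.2.2
    have i2 : (u'.1 = t'.1 ∧ u'.2 = t'.2) ∨ (-N ≤ u'.1 ∧ u'.1 ≤ R ∧ -M ≤ u'.2 ∧ u'.2 ≤ M) := by
      rcases hm u' hu' with h | h | h
      · rw [h]; right; exact hxb
      · rw [h]; left; exact ⟨rfl, rfl⟩
      · right; exact h.2.2
    rw [lat_adj] at hadj
    simp only [VL, Set.mem_setOf_eq]
    omega

lemma left_val {y : ℤ} : cr (VL (-N) y) (x' :: (l' ++ [t'])) = 0 := by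
  have hm := fun v => memP ha hf hQ hP hx ht hd (v := v)
  have hxb := hP.xb
  have htc := hP.tc
  refine cr_zero hP.ch fun u u' hu hu' hadj => ?_
  have i1 : (u.1 = t'.1 ∧ u.2 = t'.2) ∨ (-N ≤ u.1 ∧ u.1 ≤ R ∧ -M ≤ u.2 ∧ u.2 ≤ M) := by
    rcases hm u hu with h | h | h
    · rw [h]; right; exact hxb
    · rw [h]; left; exact ⟨rfl, rfl⟩
    · right; exact h.2.2
  have i2 : (u'.1 = t'.1 ∧ u'.2 = t'.2) ∨ (-N ≤ u'.1 ∧ u'.1 ≤ R ∧ -M ≤ u'.2 ∧ u'.2 ≤ M) := by
    rcases hm u' hu' with h | h | h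
    · rw [h]; right; exact hxb
    · rw [h]; left; exact ⟨rfl, rfl⟩
    · right; exact h.2.2
  rw [lat_adj] at hadj
  simp only [VL]
  omega

lemma bot_val {a : ℤ} (h : -N ≤ a) :
    cr (VL a (-M - 1)) (x' :: (l' ++ [t'])) = br (t'.2 = -M - 1 ∧ t'.1 < a) := by
  have hm := fun v => memP ha hf hQ hP hx ht hd (v := v)
  have hxb := hP.xb
  have htc := hP.tc
  rw [cr_bd (Q := {w : ℤ × ℤ | w.2 = -M - 1 ∧ w.1 < a}) hP.ch ?_ (by simp)]
  · have e : (x' :: (l' ++ [t'])).getLast (by simp) = t' := by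
      rw [List.getLast_cons (by simp), List.getLast_append_singleton]
    rw [e, List.head_cons, ind_not_mem (by simp only [mem_setOf_eq]; omega), zero_add]
    rfl
  · intro u u' hu hu' hadj
    have i1 : (u.1 = t'.1 ∧ u.2 = t'.2) ∨ (-N ≤ u.1 ∧ u.1 ≤ R ∧ -M ≤ u.2 ∧ u.2 ≤ M) := by
      rcases hm u hu with h | h | h
      · rw [h]; right; exact hxb
      · rw [h]; left; exact ⟨rfl, rfl⟩
      · right; exact h.2.2
    have i2 : (u'.1 = t'.1 ∧ u'.2 = t'.2) ∨ (-N ≤ u'.1 ∧ u'.1 ≤ R ∧ -M ≤ u'.2 ∧ u'.2 ≤ M) := by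
      rcases hm u' hu' with h | h | h
      · rw [h]; right; exact hxb
      · rw [h]; left; exact ⟨rfl, rfl⟩
      · right; exact h.2.2
    rw [lat_adj] at hadj
    simp only [VL, Set.mem_setOf_eq]
    omega

omit ha hf hQ hP hx ht hd in
lemma toLex_lt' {a b c d : ℤ} : (toLex (a, b) : Lex (ℤ × ℤ)) < toLex (c, d) ↔
    a < c ∨ (a = c ∧ b < d) := by
  rw [Prod.Lex.toLex_lt_toLex]

/-- order of exits -/
lemma ek_iff : ek M t < ek M t' ↔
    (t.2 = M + 1 ∧ (t'.2 ≠ M + 1 ∨ t'.1 < t.1)) ∨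
    (t.2 ≠ M + 1 ∧ t.2 ≠ -M - 1 ∧ (t'.2 < t.2)) ∨
    (t.2 = -M - 1 ∧ t'.2 = -M - 1 ∧ t.1 < t'.1) := by
  have hM := hf.1
  have h1 := hQ.tc
  have h2 := hP.tc
  unfold ek
  rcases h1 with h1 | h1 | h1
  · rcases h2 with h2 | h2 | h2
    · rw [if_pos h1, if_pos h2, toLex_lt']; omega
    · rw [if_pos h1, if_neg (by omega), if_pos (by omega), toLex_lt']; omega
    · rw [if_pos h1, if_neg (by omega), if_neg (by omega), toLex_lt']; omega
  · rcases h2 with h2 | h2 | h2
    · rw [if_neg (by omega), if_pos (by omega), if_pos h2, toLex_lt']; omega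
    · rw [if_neg (by omega), if_pos (by omega), if_neg (by omega), if_pos (by omega), toLex_lt']
      omega
    · rw [if_neg (by omega), if_pos (by omega), if_neg (by omega), if_neg (by omega), toLex_lt']
      omega
  · rcases h2 with h2 | h2 | h2
    · rw [if_neg (by omega), if_neg (by omega), if_pos h2, toLex_lt']; omega
    · rw [if_neg (by omega), if_neg (by omega), if_neg (by omega), if_pos (by omega), toLex_lt']
      omega
    · rw [if_neg (by omega), if_neg (by omega), if_neg (by omega), if_neg (by omega), toLex_lt']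
      omega

/-- value at the last box vertex -/
lemma pot_last {u : ℤ × ℤ} (hu : u ∈ x :: l) (hut : lat.Adj u t) :
    pot M x' t' l' u = br (ek M t < ek M t') + br (t'.2 = -M - 1) := by
  have hM := hf.1
  have h1 := hQ.tc
  have h2 := hP.tc
  have hxb := hP.xb
  have hxr := hP.xr
  have hub := Q_box ha hf hQ hP hx ht hd hu
  have hun := Q_notP ha hf hQ hP hx ht hd hu
  have htt : ¬ (t.1 = t'.1 ∧ t.2 = t'.2) := fun hh => ht (Prod.ext hh.1 hh.2)
  rw [br_congr (ek_iff ha hf hQ hP hx ht hd), pot_def]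
  rw [lat_adj] at hut
  obtain ⟨a, y⟩ := u
  simp only at *
  rcases h1 with h1 | h1 | h1
  · have e1 : y = M ∧ a = t.1 := by omega
    obtain ⟨rfl, rfl⟩ := e1
    rw [top_val ha hf hQ hP hx ht hd (by omega)]
    rw [br_false (p := x'.2 < 0 ∧ y = x'.2 ∧ x'.1 < t.1) (by omega)]
    rcases h2 with h2 | h2 | h2
    · by_cases c : t'.1 < t.1
      · rw [br_true (by omega), br_false (by omega), br_true (by omega), br_false (by omega)]
        rfl
      · rw [br_false (by omega), br_false (by omega), br_false (by omega), br_false (by omega)]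
        rfl
    · rw [br_false (by omega), br_false (by omega), br_true (by omega), br_true (by omega)]
      rfl
    · rw [br_false (by omega), br_true (by omega), br_true (by omega), br_false (by omega)]
      rfl
  · have e1 : y = -M ∧ a = t.1 := by omega
    obtain ⟨rfl, rfl⟩ := e1
    have hv := vert ha hf hQ hP hx ht hd hun
    rw [bot_val ha hf hQ hP hx ht hd (by omega)] at hv
    have e2 : br (x'.1 < t.1 ∧ x'.2 = -M) = br (x'.2 < 0 ∧ -M = x'.2 ∧ x'.1 < t.1) := by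
      apply br_congr
      constructor
      · rintro ⟨c1, c2⟩
        refine ⟨?_, c2.symm, c1⟩
        by_contra c3
        have hM0 : M = 0 := by omega
        subst hM0
        have := hQ.tr
        obtain ⟨a1, a2, a3, a4⟩ := ha
        rw [c2] at hxr
        rw [h1] at this
        norm_num at this hxr
        omega
      · rintro ⟨c1, c2, c3⟩
        exact ⟨c3, c2.symm⟩
    have e3 : br (t'.1 < t.1 ∧ t'.2 = -M) = br (-M ≤ t'.2 ∧ t'.2 ≤ M ∧ t'.2 ≤ -M) := by
      apply br_congr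
      omega
    rw [e2, e3] at hv
    have z1 := br_self (x'.2 < 0 ∧ -M = x'.2 ∧ x'.1 < t.1)
    have z2 := br_self (-M ≤ t'.2 ∧ t'.2 ≤ M ∧ t'.2 ≤ -M)
    have z3 := br_self (t'.2 = -M - 1 ∧ t'.1 < t.1)
    have e4 : br (t'.2 = -M - 1 ∧ t'.1 < t.1) = br (t.2 = M + 1 ∧ (t'.2 ≠ M + 1 ∨ t'.1 < t.1) ∨
        t.2 ≠ M + 1 ∧ t.2 ≠ -M - 1 ∧ t'.2 < t.2 ∨ t.2 = -M - 1 ∧ t'.2 = -M - 1 ∧ t.1 < t'.1) +
        br (t'.2 = -M - 1) := by
      by_cases c1 : t'.2 = -M - 1
      · by_cases c2 : t'.1 < t.1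
        · rw [br_true (by omega), br_false (by omega), br_true (by omega)]; rfl
        · rw [br_false (by omega), br_true (by omega), br_true (by omega)]; rfl
      · rw [br_false (by omega), br_false (by omega), br_false (by omega)]; rfl
    rw [← e4]
    linear_combination hv + z1 + z2 - z3
  · have e1 : a = -N ∧ y = t.2 := by omega
    obtain ⟨rfl, rfl⟩ := e1
    rw [left_val ha hf hQ hP hx ht hd]
    rw [br_false (p := x'.2 < 0 ∧ t.2 = x'.2 ∧ x'.1 < -N) (by omega)]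
    rcases h2 with h2 | h2 | h2
    · rw [br_false (by omega), br_false (by omega), br_false (by omega)]
      rfl
    · rw [br_false (by omega), br_true (by omega), br_true (by omega)]
      rfl
    · by_cases c : t'.2 < t.2
      · rw [br_true (by omega), br_true (by omega), br_false (by omega)]; rfl
      · rw [br_false (by omega), br_false (by omega), br_false (by omega)]; rfl

/-- order of starts -/
lemma sk_iff : sk x < sk x' ↔
    x'.2 < x.2 ∨ (x.2 = x'.2 ∧ ((0 ≤ x.2 ∧ x'.1 < x.1) ∨ (x.2 < 0 ∧ x.1 < x'.1))) := by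
  unfold sk
  rw [toLex_lt']
  by_cases c : 0 ≤ x.2
  · by_cases c' : 0 ≤ x'.2
    · rw [if_pos c, if_pos c']; omega
    · rw [if_pos c, if_neg c']; omega
  · by_cases c' : 0 ≤ x'.2
    · rw [if_neg c, if_pos c']; omega
    · rw [if_neg c, if_neg c']; omega

/-- value at the first vertex -/
lemma pot_first : pot M x' t' l' x = br (sk x < sk x') + br (t'.2 = -M - 1) := by
  have hM := hf.1
  have h2 := hP.tc
  have hxb := hP.xb
  have hxr := hP.xr
  have hxb2 := hQ.xb
  have hxr2 := hQ.xr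
  have hxx : ¬ (x.1 = x'.1 ∧ x.2 = x'.2) := fun hh => hx (Prod.ext hh.1 hh.2)
  rw [br_congr (sk_iff ha hf hQ hP hx ht hd), pot_def]
  by_cases hc : x'.2 = x.2 ∧ x.1 ≤ x'.1
  · -- `x'` lies to the right of `x` in the same row
    have hne : x.2 ≠ 0 := by
      intro h0
      obtain ⟨a1, a2, a3, a4⟩ := ha
      obtain ⟨v, v1, v2⟩ := hQ.fs
      obtain ⟨v', v1', v2'⟩ := hP.fs
      rw [lat_adj] at v1 v1'
      have k0 : x'.2 = 0 := by omega
      rw [h0] at hxr2
      rw [k0] at hxr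
      have f1 : x.1 = g 0 + 1 := by
        rcases v1 with ⟨c1, c2 | c2⟩ | ⟨c1, c2⟩
        · have : v.2 = -1 := by omega
          rw [this] at v2; omega
        · have : v.2 = 1 := by omega
          rw [this] at v2; omega
        · have : v.2 = 0 := by omega
          rw [this] at v2; omega
      have f2 : x'.1 = g 0 + 1 := by
        rcases v1' with ⟨c1, c2 | c2⟩ | ⟨c1, c2⟩
        · have : v'.2 = -1 := by omega
          rw [this] at v2'; omega
        · have : v'.2 = 1 := by omega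
          rw [this] at v2'; omega
        · have : v'.2 = 0 := by omega
          rw [this] at v2'; omega
      omega
    have hlt : x.1 < x'.1 := by omega
    have hxn : (x.1, x.2) ∉ x' :: (l' ++ [t']) := by
      exact Q_notP ha hf hQ hP hx ht hd (v := x) (by simp)
    rcases lt_or_gt_of_ne hne with hneg | hpos
    · -- negative row
      have hr : g (x.2 + 1) < x.1 := by
        have := ha.2.1 x.2 (by omega)
        omega
      have hn1 : (x.1, x.2 + 1) ∉ x' :: (l' ++ [t']) := by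
        refine rg_notP ha hf hQ hP hx ht hd hr ?_
        intro hh
        have := congrArg Prod.snd hh
        simp only at this
        omega
      have hv := vert ha hf hQ hP hx ht hd hn1
      rw [add_sub_cancel_right, far_val ha hf hQ hP hx ht hd hr (by omega)] at hv
      have e1 : br (x'.1 < x.1 ∧ x'.2 = x.2 + 1) = 0 := br_false (by omega)
      have e2 : br (x'.2 ≤ x.2 + 1) = 1 := br_true (by omega)
      have e3 : br (x'.2 < 0 ∧ x.2 = x'.2 ∧ x'.1 < x.1) = 0 := br_false (by omega)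
      have e4 : br (x'.2 < x.2 ∨ x.2 = x'.2 ∧ (0 ≤ x.2 ∧ x'.1 < x.1 ∨ x.2 < 0 ∧ x.1 < x'.1)) = 1 :=
        br_true (by omega)
      rw [e1, e2] at hv
      rw [e3, e4]
      rcases h2 with h2 | h2 | h2
      · have f1 : br (t'.1 < x.1 ∧ t'.2 = x.2 + 1) = 0 := br_false (by omega)
        have f2 : br (t'.2 ≤ x.2 + 1) = 0 := br_false (by omega)
        have f3 : br (-M ≤ t'.2 ∧ t'.2 ≤ M ∧ t'.2 ≤ x.2) = 0 := br_false (by omega)
        have f4 : br (t'.2 = -M - 1) = 0 := br_false (by omega)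
        rw [f1, f2] at hv
        rw [f3, f4]
        have z1 := two_zmod (1 : ZMod 2)
        linear_combination hv - z1
      · have f1 : br (t'.1 < x.1 ∧ t'.2 = x.2 + 1) = 0 := br_false (by omega)
        have f2 : br (t'.2 ≤ x.2 + 1) = 1 := br_true (by omega)
        have f3 : br (-M ≤ t'.2 ∧ t'.2 ≤ M ∧ t'.2 ≤ x.2) = 0 := br_false (by omega)
        have f4 : br (t'.2 = -M - 1) = 1 := br_true (by omega)
        rw [f1, f2] at hv
        rw [f3, f4]
        have z1 := two_zmod (1 : ZMod 2)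
        linear_combination hv - 2 * z1
      · have f4 : br (t'.2 = -M - 1) = 0 := br_false (by omega)
        rw [f4]
        rcases lt_trichotomy t'.2 (x.2 + 1) with c | c | c
        · have f1 : br (t'.1 < x.1 ∧ t'.2 = x.2 + 1) = 0 := br_false (by omega)
          have f2 : br (t'.2 ≤ x.2 + 1) = 1 := br_true (by omega)
          have f3 : br (-M ≤ t'.2 ∧ t'.2 ≤ M ∧ t'.2 ≤ x.2) = 1 := br_true (by omega)
          rw [f1, f2] at hv
          rw [f3]
          have z1 := two_zmod (1 : ZMod 2)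
          linear_combination hv - z1
        · have f1 : br (t'.1 < x.1 ∧ t'.2 = x.2 + 1) = 1 := br_true (by omega)
          have f2 : br (t'.2 ≤ x.2 + 1) = 1 := br_true (by omega)
          have f3 : br (-M ≤ t'.2 ∧ t'.2 ≤ M ∧ t'.2 ≤ x.2) = 0 := br_false (by omega)
          rw [f1, f2] at hv
          rw [f3]
          have z1 := two_zmod (1 : ZMod 2)
          linear_combination hv - z1
        · have f1 : br (t'.1 < x.1 ∧ t'.2 = x.2 + 1) = 0 := br_false (by omega)
          have f2 : br (t'.2 ≤ x.2 + 1) = 0 := br_false (by omega)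
          have f3 : br (-M ≤ t'.2 ∧ t'.2 ≤ M ∧ t'.2 ≤ x.2) = 0 := br_false (by omega)
          rw [f1, f2] at hv
          rw [f3]
          have z1 := two_zmod (1 : ZMod 2)
          linear_combination hv - z1
    · -- positive row
      have hr : g (x.2 - 1) < x.1 := by
        have := ha.1 x.2 (by omega)
        omega
      have hv := vert ha hf hQ hP hx ht hd hxn
      rw [far_val ha hf hQ hP hx ht hd hr (by omega)] at hv
      have e1 : br (x'.1 < x.1 ∧ x'.2 = x.2) = 0 := br_false (by omega)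
      have e2 : br (x'.2 ≤ x.2 - 1) = 0 := br_false (by omega)
      have e3 : br (x'.2 < 0 ∧ x.2 = x'.2 ∧ x'.1 < x.1) = 0 := br_false (by omega)
      have e4 : br (x'.2 < x.2 ∨ x.2 = x'.2 ∧ (0 ≤ x.2 ∧ x'.1 < x.1 ∨ x.2 < 0 ∧ x.1 < x'.1)) = 0 :=
        br_false (by omega)
      rw [e1, e2] at hv
      rw [e3, e4]
      rcases h2 with h2 | h2 | h2
      · have f1 : br (t'.1 < x.1 ∧ t'.2 = x.2) = 0 := br_false (by omega)
        have f2 : br (t'.2 ≤ x.2 - 1) = 0 := br_false (by omega)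
        have f3 : br (-M ≤ t'.2 ∧ t'.2 ≤ M ∧ t'.2 ≤ x.2) = 0 := br_false (by omega)
        have f4 : br (t'.2 = -M - 1) = 0 := br_false (by omega)
        rw [f1, f2] at hv
        rw [f3, f4]
        linear_combination hv
      · have f1 : br (t'.1 < x.1 ∧ t'.2 = x.2) = 0 := br_false (by omega)
        have f2 : br (t'.2 ≤ x.2 - 1) = 1 := br_true (by omega)
        have f3 : br (-M ≤ t'.2 ∧ t'.2 ≤ M ∧ t'.2 ≤ x.2) = 0 := br_false (by omega)
        have f4 : br (t'.2 = -M - 1) = 1 := br_true (by omega)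
        rw [f1, f2] at hv
        rw [f3, f4]
        have z1 := two_zmod (1 : ZMod 2)
        linear_combination hv - z1
      · have f4 : br (t'.2 = -M - 1) = 0 := br_false (by omega)
        rw [f4]
        rcases lt_trichotomy t'.2 x.2 with c | c | c
        · have f1 : br (t'.1 < x.1 ∧ t'.2 = x.2) = 0 := br_false (by omega)
          have f2 : br (t'.2 ≤ x.2 - 1) = 1 := br_true (by omega)
          have f3 : br (-M ≤ t'.2 ∧ t'.2 ≤ M ∧ t'.2 ≤ x.2) = 1 := br_true (by omega)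
          rw [f1, f2] at hv
          rw [f3]
          linear_combination hv
        · have f1 : br (t'.1 < x.1 ∧ t'.2 = x.2) = 1 := br_true (by omega)
          have f2 : br (t'.2 ≤ x.2 - 1) = 0 := br_false (by omega)
          have f3 : br (-M ≤ t'.2 ∧ t'.2 ≤ M ∧ t'.2 ≤ x.2) = 1 := br_true (by omega)
          rw [f1, f2] at hv
          rw [f3]
          have z1 := two_zmod (1 : ZMod 2)
          linear_combination hv + z1
        · have f1 : br (t'.1 < x.1 ∧ t'.2 = x.2) = 0 := br_false (by omega)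
          have f2 : br (t'.2 ≤ x.2 - 1) = 0 := br_false (by omega)
          have f3 : br (-M ≤ t'.2 ∧ t'.2 ≤ M ∧ t'.2 ≤ x.2) = 0 := br_false (by omega)
          rw [f1, f2] at hv
          rw [f3]
          linear_combination hv
  · rw [far_val ha hf hQ hP hx ht hd hxr2 hc]
    have e5 : br (t'.2 ≤ x.2) = br (-M ≤ t'.2 ∧ t'.2 ≤ M ∧ t'.2 ≤ x.2) + br (t'.2 = -M - 1) := by
      by_cases c1 : t'.2 = -M - 1
      · rw [br_true (by omega), br_false (by omega), br_true (by omega)]; rfl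
      · rw [br_false (p := t'.2 = -M - 1) (by omega), add_zero]
        apply br_congr
        omega
    have e6 : br (x'.2 < x.2 ∨ x.2 = x'.2 ∧ (0 ≤ x.2 ∧ x'.1 < x.1 ∨ x.2 < 0 ∧ x.1 < x'.1)) =
        br (x'.2 ≤ x.2) + br (x'.2 < 0 ∧ x.2 = x'.2 ∧ x'.1 < x.1) := by
      by_cases c1 : x'.2 = x.2
      · by_cases c2 : 0 ≤ x.2
        · rw [br_true (by omega), br_true (by omega), br_false (by omega)]; rfl
        · rw [br_false (by omega), br_true (by omega), br_true (by omega)]; rfl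
      · rw [br_false (p := x'.2 < 0 ∧ x.2 = x'.2 ∧ x'.1 < x.1) (by omega), add_zero]
        apply br_congr
        omega
    rw [e5, e6]
    have z1 := br_self (-M ≤ t'.2 ∧ t'.2 ≤ M ∧ t'.2 ≤ x.2)
    linear_combination z1

end main

theorem main : S_PL1 := by
  intro g ha N R M hf x t x' t' l l' hQ' hP' hx ht hd
  have hQ := PD.of hf hQ'
  have hP := PD.of hf hP'
  obtain ⟨u, hu1, hu2, hu3⟩ := hQ.lt
  have h1 := pot_last ha hf hQ hP hx ht hd hu1 hu3
  have h2 := pot_first ha hf hQ hP hx ht hd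
  have h3 := pot_const ha hf hQ hP hx ht hd hu2
  rw [h1, h2] at h3
  have h4 : br (sk x < sk x') = br (ek M t < ek M t') := add_right_cancel h3
  by_cases c1 : sk x < sk x'
  · by_cases c2 : ek M t < ek M t'
    · exact iff_of_true c1 c2
    · rw [br_true c1, br_false c2] at h4
      exact absurd h4 (by decide)
  · by_cases c2 : ek M t < ek M t'
    · rw [br_false c1, br_true c2] at h4
      exact absurd h4 (by decide)
    · exact iff_of_false c1 c2

end Pool.Agent.W346.UCPL1
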