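import Pool.Agent.W829.UC.Stmts
import Pool.Agent.W346.UCPL1

/-!
# UC-PL2 (MP_566bac_pr): a path in the half plane encloses
-/

set_option autoImplicit false
set_option linter.all false

open MeasureTheory Set
open Pool.Agent.H978R2

namespace Pool.Agent.W346.UCPL2

open Pool.Agent.W829.UC
open Pool.Agent.W346.UCPL1

/-- horizontal steps between the columns `a` and `a + 1`, strictly below the height `y` -/
def HL (a y : ℤ) (u u' : ℤ × ℤ) : Prop :=
  u.2 = u'.2 ∧ u.2 < y ∧ ((u.1 = a ∧ u'.1 = a + 1) ∨ (u.1 = a + 1 ∧ u'.1 = a))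

lemma HL_vert {l : List (ℤ × ℤ)} (hl : l.IsChain lat.Adj) {a y : ℤ} (h : (a, y) ∉ l) :
    cr (HL a (y + 1)) l = cr (HL a y) l := by
  refine cr_congr hl fun u u' hu hu' hadj => ?_
  have e1' : ¬ (u.1 = a ∧ u.2 = y) := fun hh => h (by
    have : u = (a, y) := Prod.ext hh.1 hh.2
    exact this ▸ hu)
  have e2' : ¬ (u'.1 = a ∧ u'.2 = y) := fun hh => h (by
    have : u' = (a, y) := Prod.ext hh.1 hh.2
    exact this ▸ hu')
  unfold HL
  omega

lemma HL_horiz {l : List (ℤ × ℤ)} (hl : l.IsChain lat.Adj) {a y : ℤ} (h : (a, y) ∉ l)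
    (hne : l ≠ []) :
    cr (HL (a - 1) y) l + cr (HL a y) l =
      br ((l.head hne).1 = a ∧ (l.head hne).2 < y) +
        br ((l.getLast hne).1 = a ∧ (l.getLast hne).2 < y) := by
  rw [cr_add (P'' := fun u u' => ¬ (u ∈ {w : ℤ × ℤ | w.1 = a ∧ w.2 < y} ↔
    u' ∈ {w : ℤ × ℤ | w.1 = a ∧ w.2 < y})) hl]
  · exact cr_bd (Q := {w : ℤ × ℤ | w.1 = a ∧ w.2 < y}) hl (fun _ _ _ _ _ => Iff.rfl) hne
  · intro u u' hu hu' hadj
    rw [lat_adj] at hadj
    have e1' : ¬ (u.1 = a ∧ u.2 = y) := fun hh => h (by
      have : u = (a, y) := Prod.ext hh.1 hh.2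
      exact this ▸ hu)
    have e2' : ¬ (u'.1 = a ∧ u'.2 = y) := fun hh => h (by
      have : u' = (a, y) := Prod.ext hh.1 hh.2
      exact this ▸ hu')
    simp only [HL, Set.mem_setOf_eq]
    obtain ⟨a, b⟩ := u
    obtain ⟨c, d⟩ := u'
    simp only at *
    omega

theorem main : S_PL2 := by
  intro γ m hγ hm i j hcγ hcm hhead hi hij hmh hz hrow hav
  set z := γ.getLast hγ with hzdef
  have hh1 : (γ.head hγ).1 = -j := by rw [hhead]
  have hh2 : (γ.head hγ).2 = 1 := by rw [hhead]
  have hmemh : γ.head hγ ∈ γ := List.head_mem hγ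
  have hmemz : z ∈ γ := List.getLast_mem hγ
  have hconst := const_of_chain
    (fun v : ℤ × ℤ => cr (HL v.1 v.2) γ + br (-j ≤ v.1 ∧ v.1 < z.1)) hcm
    (fun a b ha hb hab => by
      obtain ⟨a3, a4, a5⟩ := hav a ha
      obtain ⟨b3, b4, b5⟩ := hav b hb
      rw [lat_adj] at hab
      have key : ∀ c y : ℤ, 1 ≤ y → (c, y) ∉ γ → ¬ (c = z.1 ∧ y ≤ z.2) →
          cr (HL (c - 1) y) γ + br (-j ≤ c - 1 ∧ c - 1 < z.1) =
          cr (HL c y) γ + br (-j ≤ c ∧ c < z.1) := by
        intro c y hy h1 h2
        have h3 := HL_horiz hcγ h1 hγ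
        rw [hh1, hh2, ← hzdef] at h3
        have z0 := two_zmod (cr (HL c y) γ)
        have z1 := two_zmod (1 : ZMod 2)
        have h4 : ¬ (-j = c ∧ y ≤ 1) := by
          rintro ⟨k1, k2⟩
          apply h1
          have : γ.head hγ = (c, y) := by rw [hhead, k1, show y = 1 by omega]
          rw [← this]
          exact hmemh
        by_cases c1 : -j = c
        · have g1 : br (-j = c ∧ 1 < y) = 1 := br_true (by omega)
          have g2 : br (z.1 = c ∧ z.2 < y) = 0 := br_false (by omega)
          have g3 : br (-j ≤ c - 1 ∧ c - 1 < z.1) = 0 := br_false (by omega)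
          have g4 : br (-j ≤ c ∧ c < z.1) = 1 := br_true (by omega)
          rw [g1, g2] at h3
          rw [g3, g4]
          linear_combination h3 - z0
        · by_cases c2 : z.1 = c
          · have g1 : br (-j = c ∧ 1 < y) = 0 := br_false (by omega)
            have g2 : br (z.1 = c ∧ z.2 < y) = 1 := br_true (by omega)
            have g3 : br (-j ≤ c - 1 ∧ c - 1 < z.1) = 1 := br_true (by omega)
            have g4 : br (-j ≤ c ∧ c < z.1) = 0 := br_false (by omega)
            rw [g1, g2] at h3
            rw [g3, g4]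
            linear_combination h3 - z0 + z1
          · have g1 : br (-j = c ∧ 1 < y) = 0 := br_false (by omega)
            have g2 : br (z.1 = c ∧ z.2 < y) = 0 := br_false (by omega)
            have g3 : br (-j ≤ c - 1 ∧ c - 1 < z.1) = br (-j ≤ c ∧ c < z.1) :=
              br_congr (by omega)
            rw [g1, g2] at h3
            rw [g3]
            linear_combination h3 - z0
      obtain ⟨a1, a2⟩ := a
      obtain ⟨b1, b2⟩ := b
      simp only at *
      rcases hab with ⟨rfl, rfl | rfl⟩ | ⟨rfl, rfl | rfl⟩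
      · rw [HL_vert hcγ b4]
      · rw [HL_vert hcγ a4]
      · have := key (b1 + 1) a2 a3 a4 (by tauto)
        rw [add_sub_cancel_right] at this
        exact this.symm
      · have := key (a1 + 1) a2 b3 b4 (by tauto)
        rw [add_sub_cancel_right] at this
        exact this) hm
  have hstart : cr (HL (m.head hm).1 (m.head hm).2) γ +
      br (-j ≤ (m.head hm).1 ∧ (m.head hm).1 < z.1) = 1 := by
    rw [hmh]
    simp only
    rw [cr_zero hcγ, zero_add, br_true (by omega)]
    intro u u' hu hu' _
    have := hrow u hu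
    unfold HL
    omega
  replace hconst : cr (HL (m.head hm).1 (m.head hm).2) γ +
      br (-j ≤ (m.head hm).1 ∧ (m.head hm).1 < z.1) =
      cr (HL (m.getLast hm).1 (m.getLast hm).2) γ +
      br (-j ≤ (m.getLast hm).1 ∧ (m.getLast hm).1 < z.1) := hconst
  rw [hstart] at hconst
  have hlast := List.getLast_mem hm
  generalize m.getLast hm = e at *
  obtain ⟨a, y⟩ := e
  simp only at hconst ⊢
  have n01 : (1 : ZMod 2) ≠ 0 := by decide
  refine ⟨?_, ?_, ?_, ?_⟩
  · by_contra hcon
    push Not at hcon
    rw [cr_bd (Q := {w : ℤ × ℤ | w.1 ≤ a}) hcγ ?_ hγ] at hconst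
    · have e1 : ind {w : ℤ × ℤ | w.1 ≤ a} (γ.head hγ) = br (-j ≤ a) := by
        rw [← hh1]; rfl
      have e2 : ind {w : ℤ × ℤ | w.1 ≤ a} (γ.getLast hγ) = br (z.1 ≤ a) := rfl
      rw [e1, e2] at hconst
      by_cases c1 : -j ≤ a
      · by_cases c2 : a < z.1
        · have g1 : br (-j ≤ a) = 1 := br_true c1
          have g2 : br (z.1 ≤ a) = 0 := br_false (by omega)
          have g3 : br (-j ≤ a ∧ a < z.1) = 1 := br_true (by omega)
          rw [g1, g2, g3] at hconst
          exact absurd hconst (by decide)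
        · have g1 : br (-j ≤ a) = 1 := br_true c1
          have g2 : br (z.1 ≤ a) = 1 := br_true (by omega)
          have g3 : br (-j ≤ a ∧ a < z.1) = 0 := br_false (by omega)
          rw [g1, g2, g3] at hconst
          exact absurd hconst (by decide)
      · have g1 : br (-j ≤ a) = 0 := br_false c1
        have g2 : br (z.1 ≤ a) = 0 := br_false (by omega)
        have g3 : br (-j ≤ a ∧ a < z.1) = 0 := br_false (by omega)
        rw [g1, g2, g3] at hconst
        exact absurd hconst (by decide)
    · intro u u' hu hu' hadj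
      have k1 := hcon u hu
      have k2 := hcon u' hu'
      rw [lat_adj] at hadj
      simp only [HL, mem_setOf_eq]
      omega
  · by_contra hcon
    push Not at hcon
    have k := hcon _ hmemh
    rw [cr_zero hcγ, zero_add, br_false (by omega)] at hconst
    · exact n01 hconst
    · intro u u' hu hu' _
      have k1 := hcon u hu
      have k2 := hcon u' hu'
      unfold HL
      omega
  · by_contra hcon
    push Not at hcon
    have k := hcon _ hmemz
    rw [cr_zero hcγ, zero_add, br_false (by omega)] at hconst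
    · exact n01 hconst
    · intro u u' hu hu' _
      have k1 := hcon u hu
      have k2 := hcon u' hu'
      unfold HL
      omega
  · intro hy
    subst hy
    by_contra hcon
    rw [cr_zero hcγ, zero_add, br_false (by omega)] at hconst
    · exact n01 hconst
    · intro u u' hu hu' _
      have k1 := hrow u hu
      have k2 := hrow u' hu'
      unfold HL
      omega

end Pool.Agent.W346.UCPL2
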