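import Pool.Agent.W674.LVF.Stm

set_option autoImplicit false

open MeasureTheory Set Filter Topology Asymptotics
open scoped ENNReal NNReal
open Pool.Agent.W674.LVR Pool.Agent.W674.LVF

namespace Pool.Agent.W346.LVFbase

lemma exists_delta {k m : ℕ} (L : Rn k →L[ℝ] Rn m) : ∃ δ : ℝ≥0, δ ≠ 0 ∧
    (Function.Injective L → ∀ (f : Rn k → Rn m) (s : Set (Rn k)), ApproximatesLinearOn f L s δ →
      ∃ K : ℝ≥0, ∀ u ∈ s, ∀ v ∈ s, dist u v ≤ K * dist (f u) (f v)) := by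
  by_cases hL : Function.Injective L
  · have hker : LinearMap.ker (L : Rn k →ₗ[ℝ] Rn m) = ⊥ := by
      rw [LinearMap.ker_eq_bot]
      exact hL
    obtain ⟨K, hK0, hK⟩ := LinearMap.exists_antilipschitzWith (L : Rn k →ₗ[ℝ] Rn m) hker
    refine ⟨K⁻¹ / 2, (div_pos (inv_pos.2 hK0) two_pos).ne', fun _ f s hf => ⟨2 * K, ?_⟩⟩
    intro u hu v hv
    have h1 := hf u hu v hv
    have h2 := hK.le_mul_dist u v
    rw [dist_eq_norm] at h2 ⊢
    rw [dist_eq_norm] at h2 ⊢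
    have h3 : (L : Rn k →ₗ[ℝ] Rn m) u - (L : Rn k →ₗ[ℝ] Rn m) v = L (u - v) := by
      simp
    rw [h3] at h2
    have h4 : ‖L (u - v)‖ ≤ ‖f u - f v‖ + ‖f u - f v - L (u - v)‖ := by
      have := norm_sub_norm_le (L (u - v)) (f u - f v)
      have h5 : ‖L (u - v) - (f u - f v)‖ = ‖f u - f v - L (u - v)‖ := norm_sub_rev _ _
      linarith
    push_cast at h1 ⊢
    have hK1 : (0 : ℝ) < K := by exact_mod_cast hK0
    have h6 : (K : ℝ) * ‖L (u - v)‖ ≤ K * ‖f u - f v‖ + K * ((K : ℝ)⁻¹ / 2 * ‖u - v‖) := by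
      have := mul_le_mul_of_nonneg_left (h4.trans (add_le_add_right h1 _)) hK1.le
      rw [mul_add] at this
      exact this
    have h7 : (K : ℝ) * ((K : ℝ)⁻¹ / 2 * ‖u - v‖) = ‖u - v‖ / 2 := by
      field_simp
    linarith
  · exact ⟨1, one_ne_zero, fun h => absurd h hL⟩

lemma exists_pieces {k m : ℕ} (f : Rn k → Rn m) (s : Set (Rn k))
    (hd : ∀ u ∈ s, DifferentiableAt ℝ f u) (hi : ∀ u ∈ s, Function.Injective (fderiv ℝ f u)) :
    ∃ t : ℕ → Set (Rn k), Pairwise (Function.onFun Disjoint t) ∧ (∀ n, MeasurableSet (t n)) ∧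
      s ⊆ ⋃ n, t n ∧ ∀ n, ∃ K : ℝ≥0, ∀ u ∈ s ∩ t n, ∀ v ∈ s ∩ t n,
        dist u v ≤ K * dist (f u) (f v) := by
  choose δ hδ0 hδ using fun L : Rn k →L[ℝ] Rn m => exists_delta L
  obtain ⟨t, A, h1, h2, h3, h4, h5⟩ := exists_partition_approximatesLinearOn_of_hasFDerivWithinAt
    f s (fderiv ℝ f) (fun x hx => (hd x hx).hasFDerivAt.hasFDerivWithinAt) δ hδ0
  refine ⟨t, h1, h2, h3, fun n => ?_⟩
  rcases s.eq_empty_or_nonempty with rfl | hs
  · exact ⟨0, fun u hu => absurd hu.1 (notMem_empty u)⟩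
  · obtain ⟨y, hy, hA⟩ := h5 hs n
    exact hδ (A n) (by rw [hA]; exact hi y hy) f _ (h4 n)

end Pool.Agent.W346.LVFbase
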