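import Pool.Agent.W346.LVFbase

set_option autoImplicit false

open MeasureTheory Set Filter Topology Asymptotics
open scoped ENNReal NNReal
open Pool.Agent.W674.LVR Pool.Agent.W674.LVF

namespace Pool.Agent.W346.LVFfac

lemma inj_of_det {m : ℕ} (L : Rn m →L[ℝ] Rn m) (h : L.det ≠ 0) : Function.Injective L := by
  have h1 : IsUnit (LinearMap.det (L : Rn m →ₗ[ℝ] Rn m)) := isUnit_iff_ne_zero.2 h
  have h2 : IsUnit (L : Rn m →ₗ[ℝ] Rn m) := LinearMap.isUnit_iff_isUnit_det _ |>.2 h1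
  exact ((Module.End.isUnit_iff _).1 h2).1

/-- the extension of a function along an injective differentiable map -/
lemma extend_one {m : ℕ} (f : Rn m → Rn m) (s : Set (Rn m)) (hs : MeasurableSet s)
    (hf : Measurable f) (hi : InjOn f s) (h : Rn m → ℝ) (hh : Measurable h) :
    ∃ g : Rn m → ℝ, Measurable g ∧ ∀ u ∈ s, g (f u) = h u := by
  have := hs.standardBorel
  have h1 : Measurable (fun u : s => f u) := hf.comp measurable_subtype_coe
  have h2 : Function.Injective (fun u : s => f u) := fun a b hab =>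
    Subtype.ext (hi a.2 b.2 hab)
  obtain ⟨g, hg, hg'⟩ := (h1.measurableEmbedding h2).exists_measurable_extend
    (hh.comp (measurable_subtype_coe (p := fun u => u ∈ s))) (fun _ => ⟨0⟩)
  exact ⟨g, hg, fun u hu => congrFun hg' ⟨u, hu⟩⟩

theorem main : S_fac := by
  intro m ι hι A Ψ θ K h hA hΨ hθ hK hKt hmult hh hC
  obtain ⟨C, hC⟩ := hC
  -- the good part
  set P : ι → Set (Rn m) := fun i => A i ∩ {u | θ i u ≠ 0} ∩
    {u | DifferentiableAt ℝ (Ψ i) u} ∩ {u | (fderiv ℝ (Ψ i) u).det ≠ 0} with hP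
  have hdetm : ∀ i, Measurable (fun u => (fderiv ℝ (Ψ i) u).det) := fun i =>
    ContinuousLinearMap.continuous_det.measurable.comp (measurable_fderiv ℝ (Ψ i))
  have hPm : ∀ i, MeasurableSet (P i) := fun i =>
    (((hA i).inter ((hθ i) (measurableSet_singleton 0).compl)).inter
      (measurableSet_of_differentiableAt ℝ (Ψ i))).inter
      ((hdetm i) (measurableSet_singleton 0).compl)
  have hΨm : ∀ i, Measurable (Ψ i) := fun i => by
    obtain ⟨C, hC⟩ := hΨ i
    exact hC.continuous.measurable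
  choose t ht1 ht2 ht3 ht4 using fun i => LVFbase.exists_pieces (Ψ i) (P i)
    (fun u hu => hu.1.2) (fun u hu => inj_of_det _ hu.2)
  set Q : ι × ℕ → Set (Rn m) := fun j => P j.1 ∩ t j.1 j.2 with hQ
  have hQm : ∀ j, MeasurableSet (Q j) := fun j => (hPm _).inter (ht2 _ _)
  have hQi : ∀ j, InjOn (Ψ j.1) (Q j) := by
    intro j u hu v hv huv
    obtain ⟨K, hK⟩ := ht4 j.1 j.2
    have := hK u hu v hv
    rw [huv, dist_self, mul_zero] at this
    exact dist_le_zero.1 this
  have hQd : ∀ j, ∀ u ∈ Q j, HasFDerivAt (Ψ j.1) (fderiv ℝ (Ψ j.1) u) u := fun j u hu =>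
    DifferentiableAt.hasFDerivAt hu.1.1.2
  -- area formula on the pieces
  have harea : ∀ j, ∀ B : Set (Rn m), MeasurableSet B →
      ∫⁻ u in Q j ∩ Ψ j.1 ⁻¹' B, ENNReal.ofReal |(fderiv ℝ (Ψ j.1) u).det| =
        volume ((Ψ j.1 '' Q j) ∩ B) := by
    intro j B hB
    have h1 : MeasurableSet (Q j ∩ Ψ j.1 ⁻¹' B) := (hQm j).inter (hΨm _ hB)
    rw [lintegral_abs_det_fderiv_eq_addHaar_image volume h1
      (fun u hu => (hQd j u hu.1).hasFDerivWithinAt) ((hQi j).mono inter_subset_left)]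
    rw [image_inter_preimage]
  have hIm : ∀ j, MeasurableSet (Ψ j.1 '' Q j) := fun j =>
    measurable_image_of_fderivWithin (hQm j) (fun u hu => (hQd j u hu).hasFDerivWithinAt) (hQi j)
  -- multiplicity estimate
  have hsum : ∀ B : Set (Rn m), MeasurableSet B →
      ∑' j, volume ((Ψ (Prod.fst j) '' Q j) ∩ B) ≤ volume (B ∩ K) := by
    intro B hB
    rw [← hmult B hB]
    rw [ENNReal.tsum_prod']
    refine ENNReal.tsum_le_tsum fun i => ?_
    have h1 : ∀ n, volume ((Ψ i '' Q (i, n)) ∩ B) ≤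
        ∫⁻ u in Q (i, n) ∩ Ψ i ⁻¹' B, ‖(θ i u : ℝ) * (fderiv ℝ (Ψ i) u).det‖ₑ := by
      intro n
      rw [← harea (i, n) B hB]
      refine setLIntegral_mono' ((hQm _).inter (hΨm _ hB)) fun u hu => ?_
      have h2 : θ i u ≠ 0 := hu.1.1.1.1.2
      rw [← Real.enorm_eq_ofReal_abs, enorm_mul]
      have h3 : (1 : ℝ≥0∞) ≤ ‖(θ i u : ℝ)‖ₑ := by
        rw [Real.enorm_eq_ofReal_abs]
        have : (1 : ℝ) ≤ |(θ i u : ℝ)| := by
          rw [← Int.cast_abs]
          exact_mod_cast Int.one_le_abs h2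
        simpa using ENNReal.ofReal_le_ofReal this
      calc ‖(fderiv ℝ (Ψ i) u).det‖ₑ = 1 * ‖(fderiv ℝ (Ψ i) u).det‖ₑ := (one_mul _).symm
        _ ≤ _ := mul_le_mul_left h3 _
    refine (ENNReal.tsum_le_tsum h1).trans ?_
    rw [← lintegral_iUnion (fun n => (hQm _).inter (hΨm _ hB))]
    · refine lintegral_mono_set ?_
      refine iUnion_subset fun n u hu => ⟨hu.1.1.1.1.1, hu.2⟩
    · intro a b hab
      exact ((ht1 i hab).mono inter_subset_right inter_subset_right).mono inter_subset_left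
        inter_subset_left
  -- intersections are null
  have hnull : ∀ j k : ι × ℕ, j ≠ k → volume ((Ψ j.1 '' Q j) ∩ (Ψ k.1 '' Q k)) = 0 := by
    intro j k hjk
    set B := (Ψ j.1 '' Q j) ∩ (Ψ k.1 '' Q k) with hB
    have hBm : MeasurableSet B := (hIm j).inter (hIm k)
    have h1 := hsum B hBm
    classical
    have h2 : volume B + volume B ≤ ∑' j, volume ((Ψ (Prod.fst j) '' Q j) ∩ B) := by
      have h3 := ENNReal.sum_le_tsum (f := fun j => volume ((Ψ (Prod.fst j) '' Q j) ∩ B))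
        ({j, k} : Finset (ι × ℕ))
      rw [Finset.sum_pair hjk] at h3
      have h4 : (Ψ j.1 '' Q j) ∩ B = B := inter_eq_right.2 inter_subset_left
      have h5 : (Ψ k.1 '' Q k) ∩ B = B := inter_eq_right.2 inter_subset_right
      rw [h4, h5] at h3
      exact h3
    have h6 : volume (B ∩ K) ≤ volume B := measure_mono inter_subset_left
    have h7 : volume (B ∩ K) < ⊤ := (measure_mono inter_subset_right).trans_lt hKt
    have h8 : volume B + volume B ≤ volume (B ∩ K) := h2.trans h1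
    have h9 : volume B ≠ ⊤ := ((le_self_add).trans h8).trans_lt h7 |>.ne
    have h10 : volume B + volume B ≤ volume B + 0 := by
      rw [add_zero]
      exact h8.trans h6
    exact le_antisymm ((ENNReal.add_le_add_iff_left h9).1 h10) bot_le
  set Z : Set (Rn m) := ⋃ (j : ι × ℕ) (k : ι × ℕ) (_ : j ≠ k),
    (Ψ j.1 '' Q j) ∩ (Ψ k.1 '' Q k) with hZ
  have hZm : MeasurableSet Z := MeasurableSet.iUnion fun j => MeasurableSet.iUnion fun k =>
    MeasurableSet.iUnion fun _ => (hIm j).inter (hIm k)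
  have hZ0 : volume Z = 0 := by
    rw [hZ, measure_iUnion_null_iff]
    intro j
    rw [measure_iUnion_null_iff]
    intro k
    rw [measure_iUnion_null_iff]
    intro hjk
    exact hnull j k hjk
  -- preimages of Z are null
  have hZp : ∀ j, volume (Q j ∩ Ψ j.1 ⁻¹' Z) = 0 := by
    intro j
    have h1 := harea j Z hZm
    have h2 : volume ((Ψ j.1 '' Q j) ∩ Z) = 0 := measure_mono_null inter_subset_right hZ0
    have hm1 : Measurable (fun u => ENNReal.ofReal |(fderiv ℝ (Ψ j.1) u).det|) :=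
      ENNReal.measurable_ofReal.comp (continuous_abs.measurable.comp (hdetm j.1))
    rw [h2, lintegral_eq_zero_iff hm1] at h1
    have h3 : MeasurableSet (Q j ∩ Ψ j.1 ⁻¹' Z) := (hQm j).inter (hΨm _ hZm)
    rw [EventuallyEq, ae_restrict_iff' h3] at h1
    refine measure_mono_null ?_ (ae_iff.1 h1)
    intro u hu hcon
    have h4 := hcon hu
    have h5 : (fderiv ℝ (Ψ j.1) u).det ≠ 0 := hu.1.1.2
    simp only [Pi.zero_apply, ENNReal.ofReal_eq_zero] at h4
    exact h5 (abs_nonpos_iff.1 h4)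
  -- the function
  choose g hg1 hg2 using fun j : ι × ℕ => extend_one (Ψ j.1) (Q j) (hQm j) (hΨm _) (hQi j)
    (h j.1) (hh j.1)
  rcases isEmpty_or_nonempty ι with hE | hN
  · exact ⟨fun _ => 0, measurable_const, ⟨0, fun y => by simp⟩, fun i => (hE.false i).elim⟩
  obtain ⟨G, hG1, hG2⟩ := exists_measurable_piecewise (fun j : ι × ℕ => (Ψ j.1 '' Q j) \ Z)
    (fun j => (hIm j).diff hZm) g hg1 (by
      intro j k hjk y hy
      exfalso
      refine hy.1.2 ?_
      rw [hZ]
      simp only [mem_iUnion]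
      exact ⟨j, k, hjk, hy.1.1, hy.2.1⟩)
  refine ⟨fun y => max (-|C|) (min |C| (G y)), ?_, ⟨|C|, fun y => ?_⟩, fun i => ?_⟩
  · exact measurable_const.max (measurable_const.min hG1)
  · rw [abs_le]
    refine ⟨le_max_left _ _, max_le ?_ (min_le_left _ _)⟩
    linarith [abs_nonneg C]
  · -- the conclusion
    have hd : ∀ᵐ u ∂(volume.restrict (A i)), DifferentiableAt ℝ (Ψ i) u := by
      obtain ⟨C, hC⟩ := hΨ i
      exact ae_restrict_of_ae hC.ae_differentiableAt
    have hz : ∀ᵐ u ∂(volume : Measure (Rn m)), ∀ n, u ∉ Q (i, n) ∩ Ψ i ⁻¹' Z := by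
      rw [ae_all_iff]
      intro n
      have := hZp (i, n)
      rw [ae_iff]
      simp only [not_not]
      exact this
    filter_upwards [hd, ae_restrict_of_ae hz, ae_restrict_mem (hA i)] with u hu1 hu2 hu3 hu4 hu5
    have hu6 : u ∈ P i := ⟨⟨⟨hu3, hu4⟩, hu1⟩, hu5⟩
    obtain ⟨n, hn⟩ := mem_iUnion.1 (ht3 i hu6)
    have hu7 : u ∈ Q (i, n) := ⟨hu6, hn⟩
    have hu8 : Ψ i u ∉ Z := fun hc => hu2 n ⟨hu7, hc⟩
    have h1 := hG2 (i, n) (⟨⟨u, hu7, rfl⟩, hu8⟩ : Ψ i u ∈ (Ψ (i, n).1 '' Q (i, n)) \ Z)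
    rw [h1, hg2 (i, n) u hu7]
    have h2 := abs_le.1 ((hC i u).trans (le_abs_self C))
    rw [min_eq_right h2.2, max_eq_right h2.1]

end Pool.Agent.W346.LVFfac
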