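import Pool.Agent.W346.LVFbase

set_option autoImplicit false

open MeasureTheory Set Filter Topology Asymptotics
open scoped ENNReal NNReal
open Pool.Agent.W674.LVR Pool.Agent.W674.LVF

namespace Pool.Agent.W346.LVFpA

/-- the property of density points -/
def Dn {k : ℕ} (s : Set (Rn k)) (u : Rn k) : Prop := ∀ a : Rn k → ℝ, Continuous a →
    (∀ (r : ℝ) (w : Rn k), 0 < r → a (r • w) = r * a w) →
    (∀ ε : ℝ, 0 < ε → ∀ᶠ w in 𝓝[s] u, a (w - u) ≤ ε * ‖w - u‖) → ∀ w, a w ≤ 0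

lemma sn_le {m : ℕ} (p : Seminorm ℝ (Rn m)) : ∃ C : ℝ≥0, ∀ x, p x ≤ C * ‖x‖ := by
  refine ⟨∑ i, (p (Pi.single i 1)).toNNReal, fun x => ?_⟩
  have h1 : x = ∑ i, x i • (Pi.single i (1 : ℝ) : Rn m) := by
    ext j
    simp [Finset.sum_apply, Pi.single_apply]
  calc p x = p (∑ i, x i • (Pi.single i (1 : ℝ) : Rn m)) := by rw [← h1]
    _ ≤ ∑ i, p (x i • (Pi.single i (1 : ℝ) : Rn m)) :=
        Finset.le_sum_of_subadditive p (map_zero p).le (map_add_le_add p) _ _
    _ ≤ ∑ i, ((p (Pi.single i 1)).toNNReal : ℝ) * ‖x‖ := by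
        refine Finset.sum_le_sum fun i _ => ?_
        rw [map_smul_eq_mul, Real.coe_toNNReal _ (apply_nonneg p _), mul_comm]
        exact mul_le_mul_of_nonneg_left (norm_le_pi_norm x i) (apply_nonneg p _)
    _ = _ := by
        rw [← Finset.sum_mul]
        push_cast
        rfl

lemma sn_cont {m : ℕ} (p : Seminorm ℝ (Rn m)) : Continuous p := by
  obtain ⟨C, hC⟩ := sn_le p
  have : LipschitzWith C p := by
    refine LipschitzWith.of_dist_le_mul fun x y => ?_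
    rw [Real.dist_eq, dist_eq_norm]
    exact (abs_sub_map_le_sub p x y).trans (hC _)
  exact this.continuous

lemma sn_ge {m : ℕ} (p : Seminorm ℝ (Rn m)) (hp : IsNrm p) : ∃ c : ℝ≥0, ∀ x, ‖x‖ ≤ c * p x := by
  by_cases hn : (Metric.sphere (0 : Rn m) 1).Nonempty
  · obtain ⟨x0, hx0, hmin⟩ := (isCompact_sphere (0 : Rn m) 1).exists_isMinOn hn
      (sn_cont p).continuousOn
    have h0 : 0 < p x0 := by
      refine lt_of_le_of_ne (apply_nonneg p _) (fun h => ?_)
      have := hp x0 h.symm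
      rw [this] at hx0
      simp at hx0
    refine ⟨(p x0)⁻¹.toNNReal, fun x => ?_⟩
    rw [Real.coe_toNNReal _ (inv_nonneg.2 h0.le)]
    rcases eq_or_ne x 0 with rfl | hx
    · simp
    have h1 : 0 < ‖x‖ := norm_pos_iff.2 hx
    have h2 : (‖x‖⁻¹ • x) ∈ Metric.sphere (0 : Rn m) 1 := by
      rw [mem_sphere_zero_iff_norm, norm_smul, norm_inv, norm_norm, inv_mul_cancel₀ h1.ne']
    have h3 := hmin h2
    simp only [mem_ofPred_eq, map_smul_eq_mul, norm_inv, norm_norm] at h3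
    rw [← div_eq_inv_mul, le_div_iff₀ h0]
    rw [← div_eq_inv_mul, le_div_iff₀ h1] at h3
    linarith
  · refine ⟨0, fun x => ?_⟩
    by_contra hx
    push Not at hx
    have h1 : 0 < ‖x‖ := by simpa using hx
    refine hn ⟨‖x‖⁻¹ • x, ?_⟩
    rw [mem_sphere_zero_iff_norm, norm_smul, norm_inv, norm_norm, inv_mul_cancel₀ h1.ne']

lemma fd_bound {k : ℕ} {F : Type} [NormedAddCommGroup F] [NormedSpace ℝ F] {s : Set (Rn k)}
    {u : Rn k} {q : Rn k → F} {d : Rn k →L[ℝ] F}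
    (h : HasFDerivWithinAt q d s u) (ε : ℝ) (hε : 0 < ε) :
    ∀ᶠ w in 𝓝[s] u, ‖q w - q u - d (w - u)‖ ≤ ε * ‖w - u‖ :=
  (hasFDerivWithinAt_iff_isLittleO.1 h).bound hε

lemma Dn.uniq_le {k : ℕ} {s : Set (Rn k)} {u : Rn k} (h : Dn s u) {q : Rn k → ℝ}
    {d1 d2 : Rn k →L[ℝ] ℝ} (h1 : HasFDerivWithinAt q d1 s u) (h2 : HasFDerivWithinAt q d2 s u) :
    ∀ w, d1 w ≤ d2 w := by
  intro w
  have := h (fun w => d1 w - d2 w) (by fun_prop) (fun r w hr => by simp; ring) (by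
    intro ε hε
    filter_upwards [fd_bound h1 (ε / 2) (half_pos hε), fd_bound h2 (ε / 2) (half_pos hε)]
      with w hw1 hw2
    rw [Real.norm_eq_abs, abs_le] at hw1 hw2
    linarith) w
  linarith

lemma Dn.uniq {k : ℕ} {s : Set (Rn k)} {u : Rn k} (h : Dn s u) {q : Rn k → ℝ}
    {d1 d2 : Rn k →L[ℝ] ℝ} (h1 : HasFDerivWithinAt q d1 s u) (h2 : HasFDerivWithinAt q d2 s u) :
    d1 = d2 := by
  ext w
  exact le_antisymm (h.uniq_le h1 h2 w) (h.uniq_le h2 h1 w)

lemma md_bound {k : ℕ} {E : Type} [PseudoMetricSpace E] {φ : Rn k → E} {s : Set (Rn k)} {u : Rn k}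
    {N : Seminorm ℝ (Rn k)} (h : IsMD φ s u N) (ε : ℝ) (hε : 0 < ε) :
    ∀ᶠ w in 𝓝[s] u, |dist (φ w) (φ u) - N (w - u)| ≤ ε * ‖w - u‖ := by
  simpa using (show IsLittleO _ _ _ from h).bound hε

lemma md_eq {k m : ℕ} {s : Set (Rn k)} {u : Rn k} (hDn : Dn s u) (p : Seminorm ℝ (Rn m))
    {Y : Type} [MetricSpace Y] (e : Y → Rn m) (he : ∀ y y', dist y y' = p (e y - e y'))
    (φ : Rn k → Y) (Ψ : Rn k → Rn m) (hΨ : ∀ w ∈ s, Ψ w = e (φ w)) (hu : u ∈ s)
    (N : Seminorm ℝ (Rn k)) (hN : IsMD φ s u N) (hd : DifferentiableAt ℝ Ψ u) (w : Rn k) :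
    N w = p (fderiv ℝ Ψ u w) := by
  obtain ⟨C, hC⟩ := sn_le p
  have hfd : HasFDerivWithinAt Ψ (fderiv ℝ Ψ u) s u := hd.hasFDerivAt.hasFDerivWithinAt
  have key : ∀ ε : ℝ, 0 < ε → ∀ᶠ w in 𝓝[s] u,
      |N (w - u) - p (fderiv ℝ Ψ u (w - u))| ≤ ε * ‖w - u‖ := by
    intro ε hε
    have hC1 : (0 : ℝ) < C + 1 := by positivity
    filter_upwards [md_bound hN (ε / 2) (half_pos hε),
      fd_bound hfd (ε / 2 / (C + 1)) (div_pos (half_pos hε) hC1), self_mem_nhdsWithin]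
      with w h1 h2 h3
    have h4 : dist (φ w) (φ u) = p (Ψ w - Ψ u) := by rw [he, hΨ w h3, hΨ u hu]
    rw [h4] at h1
    have h5 : |p (Ψ w - Ψ u) - p (fderiv ℝ Ψ u (w - u))| ≤ ε / 2 * ‖w - u‖ := by
      refine (abs_sub_map_le_sub p _ _).trans ((hC _).trans ?_)
      calc (C : ℝ) * ‖Ψ w - Ψ u - fderiv ℝ Ψ u (w - u)‖
          ≤ C * (ε / 2 / (C + 1) * ‖w - u‖) := mul_le_mul_of_nonneg_left h2 C.2
        _ ≤ (C + 1) * (ε / 2 / (C + 1) * ‖w - u‖) := by
            refine mul_le_mul_of_nonneg_right (by linarith) ?_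
            positivity
        _ = ε / 2 * ‖w - u‖ := by field_simp
    rw [abs_le] at h1 h5 ⊢
    constructor <;> linarith
  have hc : Continuous (fun w => p (fderiv ℝ Ψ u w)) :=
    (sn_cont p).comp (fderiv ℝ Ψ u).continuous
  refine le_antisymm ?_ ?_
  · have := hDn (fun w => N w - p (fderiv ℝ Ψ u w)) ((sn_cont N).sub hc) (fun r w hr => by
      simp only [map_smul, map_smul_eq_mul, Real.norm_of_nonneg hr.le]; ring) (by
      intro ε hε
      filter_upwards [key ε hε] with w hw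
      exact (abs_le.1 hw).2) w
    linarith
  · have := hDn (fun w => p (fderiv ℝ Ψ u w) - N w) (hc.sub (sn_cont N)) (fun r w hr => by
      simp only [map_smul, map_smul_eq_mul, Real.norm_of_nonneg hr.le]; ring) (by
      intro ε hε
      filter_upwards [key ε hε] with w hw
      have := (abs_le.1 hw).1
      linarith) w
    linarith

lemma row_le {k : ℕ} {s : Set (Rn k)} {u : Rn k} (hDn : Dn s u) {Y : Type} [PseudoMetricSpace Y]
    (φ : Rn k → Y) (N : Seminorm ℝ (Rn k)) (hN : IsMD φ s u N) (π : Y → ℝ) (L : ℝ≥0)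
    (hπ : LipschitzWith L π) (d : Rn k →L[ℝ] ℝ) (hd : HasFDerivWithinAt (π ∘ φ) d s u)
    (w : Rn k) : |d w| ≤ L * N w := by
  have key : ∀ w, d w ≤ L * N w := by
    intro w
    have := hDn (fun w => d w - L * N w)
      (d.continuous.sub (continuous_const.mul (sn_cont N))) (fun r w hr => by
        simp only [map_smul, map_smul_eq_mul, Real.norm_of_nonneg hr.le, smul_eq_mul]; ring) (by
        intro ε hε
        have hL1 : (0 : ℝ) < L + 1 := by positivity
        filter_upwards [md_bound hN (ε / 2 / (L + 1)) (div_pos (half_pos hε) hL1),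
          fd_bound hd (ε / 2) (half_pos hε)] with w h1 h2
        have h3 : (π ∘ φ) w - (π ∘ φ) u ≤ L * dist (φ w) (φ u) :=
          (le_abs_self _).trans (by
            have := hπ.dist_le_mul (φ w) (φ u)
            rwa [Real.dist_eq] at this)
        have h4 : (L : ℝ) * dist (φ w) (φ u) ≤ L * N (w - u) + ε / 2 * ‖w - u‖ := by
          have h5 : dist (φ w) (φ u) ≤ N (w - u) + ε / 2 / (L + 1) * ‖w - u‖ := by
            linarith [(abs_le.1 h1).2]
          calc (L : ℝ) * dist (φ w) (φ u) ≤ L * (N (w - u) + ε / 2 / (L + 1) * ‖w - u‖) :=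
                mul_le_mul_of_nonneg_left h5 L.2
            _ = L * N (w - u) + L * (ε / 2 / (L + 1) * ‖w - u‖) := by ring
            _ ≤ L * N (w - u) + (L + 1) * (ε / 2 / (L + 1) * ‖w - u‖) := by
                have : (0 : ℝ) ≤ ε / 2 / (L + 1) * ‖w - u‖ := by positivity
                nlinarith
            _ = _ := by field_simp
        rw [Real.norm_eq_abs, abs_le] at h2
        linarith) w
    linarith
  rw [abs_le]
  constructor
  · have := key (-w)
    rw [map_neg, map_neg_eq_map] at this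
    linarith
  · exact key w

lemma smul_eq_comp {k : ℕ} (J : Seminorm ℝ (Rn k) → ℝ≥0∞) (hJ : VolFun k J)
    (N : Seminorm ℝ (Rn k)) (hN : IsNrm N) (L : ℝ≥0) (hL : 0 < L) :
    J (N.comp ((L : ℝ) • LinearMap.id)) = (L : ℝ≥0∞) ^ k * J N := by
  have h1 : LinearMap.det ((L : ℝ) • (LinearMap.id : Rn k →ₗ[ℝ] Rn k)) = (L : ℝ) ^ k := by
    rw [LinearMap.det_smul]
    simp
  rw [hJ.comp N _ hN (by rw [h1]; exact pow_ne_zero _ (by exact_mod_cast hL.ne')), h1]
  congr 1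
  rw [abs_of_nonneg (by positivity), ENNReal.ofReal_pow (NNReal.coe_nonneg L),
    ENNReal.ofReal_coe_nnreal]

lemma det_le {k : ℕ} (J : Seminorm ℝ (Rn k) → ℝ≥0∞) (hJ : VolFun k J) : ∃ c : ℝ≥0∞, c ≠ ⊤ ∧
    ∀ (N : Seminorm ℝ (Rn k)) (L : ℝ≥0) (M : Matrix (Fin k) (Fin k) ℝ), IsNrm N → 0 < L →
      (∀ i w, |(M.mulVec w) i| ≤ L * N w) →
      ENNReal.ofReal |M.det| ≤ c * (L : ℝ≥0∞) ^ k * J N := by
  set S : Seminorm ℝ (Rn k) := normSeminorm ℝ (Rn k) with hS
  have hSn : IsNrm S := fun w hw => by simpa [hS] using hw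
  have hS0 := hJ.pos S hSn
  refine ⟨(J S)⁻¹, ENNReal.inv_ne_top.2 hS0.ne', ?_⟩
  intro N L M hN hL hM
  by_cases hdet : M.det = 0
  · rw [hdet]
    simp
  · have h1 : J (S.comp (Matrix.toLin' M)) = ENNReal.ofReal |M.det| * J S := by
      have := hJ.comp S (Matrix.toLin' M) hSn (by rw [LinearMap.det_toLin']; exact hdet)
      rwa [LinearMap.det_toLin'] at this
    have h2 : S.comp (Matrix.toLin' M) ≤ N.comp ((L : ℝ) • LinearMap.id) := by
      intro w
      simp only [Seminorm.comp_apply, LinearMap.smul_apply, LinearMap.id_apply, map_smul_eq_mul,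
        Real.norm_of_nonneg (NNReal.coe_nonneg L), hS, coe_normSeminorm, Matrix.toLin'_apply]
      exact (pi_norm_le_iff_of_nonneg (mul_nonneg (NNReal.coe_nonneg L) (apply_nonneg N _))).2
        fun i => hM i w
    have h3 := hJ.mono _ _ h2
    rw [h1, smul_eq_comp J hJ N hN L hL] at h3
    calc ENNReal.ofReal |M.det| = ENNReal.ofReal |M.det| * J S * (J S)⁻¹ := by
          rw [mul_assoc, ENNReal.mul_inv_cancel hS0.ne' (hJ.lt_top S).ne, mul_one]
      _ ≤ ((L : ℝ≥0∞) ^ k * J N) * (J S)⁻¹ := by gcongr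
      _ = _ := by ring

end Pool.Agent.W346.LVFpA
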