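import Pool.Agent.W346.LVFpA
import Pool.Agent.W505.LVF.LVFdens

set_option autoImplicit false

open MeasureTheory Set Filter Topology Asymptotics
open scoped ENNReal NNReal
open Pool.Agent.W674.LVR Pool.Agent.W674.LVF Pool.Agent.W346.LVFpA

namespace Pool.Agent.W346.LVFpB

lemma ae_dn {k : ℕ} (s : Set (Rn k)) (hs : MeasurableSet s) :
    ∀ᵐ u ∂(volume.restrict s), Dn s u := by
  filter_upwards [Pool.Agent.W505.LVF.Dens.main k s hs] with u hu
  exact hu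

/-- decomposition for one parametrisation -/
lemma piece_one {k m : ℕ} (p : Seminorm ℝ (Rn m)) (hp : IsNrm p) {Y : Type} [MetricSpace Y]
    (e : Y → Rn m) (he : ∀ y y', dist y y' = p (e y - e y')) (A : Set (Rn k))
    (hA : MeasurableSet A) (φ : Rn k → Y) (K : ℝ≥0) (hφ : LipschitzOnWith K φ A)
    (N : Rn k → Seminorm ℝ (Rn k)) (hN : ∀ᵐ u ∂(volume.restrict A), IsMD φ A u (N u)) :
    ∃ t : ℕ → Set (Rn k), Pairwise (Function.onFun Disjoint t) ∧ (∀ n, MeasurableSet (t n)) ∧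
      (∀ n, t n ⊆ A) ∧ (∀ n, BiLipOn φ (t n)) ∧
      (∀ᵐ u ∂(volume.restrict A), u ∉ ⋃ n, t n → ∃ w ≠ 0, N u w = 0) := by
  obtain ⟨c, hc⟩ := sn_ge p hp
  have h1 : LipschitzOnWith (c * K) (fun u => e (φ u)) A := by
    refine LipschitzOnWith.of_dist_le_mul fun x hx y hy => ?_
    have h2 := hφ.dist_le_mul x hx y hy
    rw [he] at h2
    have h3 := hc (e (φ x) - e (φ y))
    rw [dist_eq_norm]
    refine h3.trans ?_
    push_cast
    rw [mul_assoc]
    exact mul_le_mul_of_nonneg_left h2 (NNReal.coe_nonneg c)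
  obtain ⟨Ψ, hΨ, hΨA⟩ := h1.extend_pi
  set P : Set (Rn k) := A ∩ {u | DifferentiableAt ℝ Ψ u} ∩
    {u | Function.Injective (fderiv ℝ Ψ u)} with hP
  have hPm : MeasurableSet P :=
    (hA.inter (measurableSet_of_differentiableAt ℝ Ψ)).inter
      ((measurable_fderiv ℝ Ψ) ContinuousLinearMap.isOpen_injective.measurableSet)
  obtain ⟨t, ht1, ht2, ht3, ht4⟩ := LVFbase.exists_pieces Ψ P (fun u hu => hu.1.2)
    (fun u hu => hu.2)
  refine ⟨fun n => P ∩ t n, ?_, fun n => hPm.inter (ht2 n), fun n u hu => hu.1.1.1, ?_, ?_⟩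
  · intro a b hab
    exact (ht1 hab).mono inter_subset_right inter_subset_right
  · intro n
    obtain ⟨K', hK'⟩ := ht4 n
    obtain ⟨C, hC⟩ := sn_le p
    refine ⟨max K (K' * c), fun u hu v hv => ⟨?_, ?_⟩⟩
    · refine (hφ.dist_le_mul u hu.1.1.1 v hv.1.1.1).trans ?_
      exact mul_le_mul_of_nonneg_right (by exact_mod_cast le_max_left _ _) dist_nonneg
    · refine (hK' u hu v hv).trans ?_
      rw [← hΨA hu.1.1.1, ← hΨA hv.1.1.1, dist_eq_norm (e (φ u)), he]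
      calc (K' : ℝ) * ‖e (φ u) - e (φ v)‖ ≤ K' * (c * p (e (φ u) - e (φ v))) :=
            mul_le_mul_of_nonneg_left (hc _) (NNReal.coe_nonneg K')
        _ = ((K' * c : ℝ≥0) : ℝ) * p (e (φ u) - e (φ v)) := by push_cast; ring
        _ ≤ _ := mul_le_mul_of_nonneg_right (by exact_mod_cast le_max_right _ _)
            (apply_nonneg p _)
  · filter_upwards [hN, ae_dn A hA, ae_restrict_of_ae hΨ.ae_differentiableAt,
      ae_restrict_mem hA] with u h2 h3 h4 h5 h6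
    have h7 : u ∉ P := by
      intro hc
      apply h6
      obtain ⟨n, hn⟩ := mem_iUnion.1 (ht3 hc)
      exact mem_iUnion.2 ⟨n, hc, hn⟩
    have h8 : ¬ Function.Injective (fderiv ℝ Ψ u) := fun hc => h7 ⟨⟨h5, h4⟩, hc⟩
    have h9 : ∃ w, fderiv ℝ Ψ u w = 0 ∧ w ≠ 0 := by
      by_contra hcon
      push Not at hcon
      exact h8 ((injective_iff_map_eq_zero (fderiv ℝ Ψ u)).2 hcon)
    obtain ⟨w, hw, hw0⟩ := h9
    refine ⟨w, hw0, ?_⟩
    rw [md_eq h3 p e he φ Ψ (fun w hw => (hΨA hw).symm) h5 (N u) h2 h4, hw, map_zero]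

/-- differentiability of Lipschitz functions of the parametrisation -/
lemma ae_diff {k : ℕ} {Y : Type} [PseudoMetricSpace Y] (A : Set (Rn k))
    (hA : MeasurableSet A) (φ : Rn k → Y) (K : ℝ≥0) (hφ : LipschitzOnWith K φ A)
    (π : Y → ℝ) (hπ : Lip π) : ∃ Q : Rn k → ℝ, LipschitzWith (hπ.choose * K) Q ∧
      (∀ᵐ u ∂(volume.restrict A), HasFDerivWithinAt (π ∘ φ) (fderiv ℝ Q u) A u) := by
  have h1 := hπ.choose_spec
  have h2 : LipschitzOnWith (hπ.choose * K) (π ∘ φ) A := h1.comp_lipschitzOnWith hφ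
  obtain ⟨Q, hQ, hQA⟩ := h2.extend_real
  refine ⟨Q, hQ, ?_⟩
  filter_upwards [ae_restrict_of_ae hQ.ae_differentiableAt, ae_restrict_mem hA] with u h3 h4
  exact h3.hasFDerivAt.hasFDerivWithinAt.congr hQA (hQA h4)

lemma jacW_congr {k : ℕ} {Y : Type} [PseudoMetricSpace Y] (A : Set (Rn k))
    (hA : MeasurableSet A) (φ : Rn k → Y) (K : ℝ≥0) (hφ : LipschitzOnWith K φ A)
    (π : Fin k → Y → ℝ) (hπ : ∀ j, Lip (π j)) :
    ∃ Q : Fin k → Rn k → ℝ,
      (∀ᵐ u ∂(volume.restrict A), ∀ j, HasFDerivWithinAt (π j ∘ φ) (fderiv ℝ (Q j) u) A u) ∧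
      ∀ P : Set (Rn k), MeasurableSet P → P ⊆ A → ∀ᵐ u ∂(volume.restrict P),
        jacW P (fun j => π j ∘ φ) u = jac Q u := by
  choose Q hQ1 hQ2 using fun j => ae_diff A hA φ K hφ (π j) (hπ j)
  refine ⟨Q, ae_all_iff.2 hQ2, ?_⟩
  intro P hP hPA
  have h3 := ae_restrict_of_ae_restrict_of_subset hPA (ae_all_iff.2 hQ2)
  filter_upwards [h3, ae_dn P hP] with u h4 h5
  unfold jacW jac
  congr 2
  ext i j
  have h6 : HasFDerivWithinAt (π i ∘ φ) (fderiv ℝ (Q i) u) P u := (h4 i).mono hPA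
  have h7 : HasFDerivWithinAt (π i ∘ φ) (fderivWithin ℝ (π i ∘ φ) P u) P u :=
    h6.differentiableWithinAt.hasFDerivWithinAt
  rw [h5.uniq h7 h6]

lemma meas_jac {k : ℕ} (Q : Fin k → Rn k → ℝ) : Measurable (jac Q) := by
  unfold jac
  simp only [Matrix.det_apply]
  refine Finset.measurable_sum _ fun σ _ => ?_
  refine Measurable.const_smul ?_ _
  refine Finset.measurable_prod _ fun i _ => ?_
  exact measurable_fderiv_apply_const ℝ _ _

/-- bound of the Jacobian determinant -/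
lemma jac_bound {k : ℕ} {J : Seminorm ℝ (Rn k) → ℝ≥0∞} {c : ℝ≥0∞}
    (hc : ∀ (N : Seminorm ℝ (Rn k)) (L : ℝ≥0) (M : Matrix (Fin k) (Fin k) ℝ), IsNrm N → 0 < L →
      (∀ i w, |(M.mulVec w) i| ≤ L * N w) →
      ENNReal.ofReal |M.det| ≤ c * (L : ℝ≥0∞) ^ k * J N)
    {Y : Type} [PseudoMetricSpace Y] (A : Set (Rn k)) (hA : MeasurableSet A) (φ : Rn k → Y)
    (K : ℝ≥0) (hφ : LipschitzOnWith K φ A) (N : Rn k → Seminorm ℝ (Rn k))
    (hN : ∀ᵐ u ∂(volume.restrict A), IsMD φ A u (N u))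
    (π : Fin k → Y → ℝ) (L : ℝ≥0) (hL : 0 < L) (hπ : ∀ j, LipschitzWith L (π j)) :
    ∀ᵐ u ∂(volume.restrict A),
      ENNReal.ofReal |jacW A (fun j => π j ∘ φ) u| ≤ c * (L : ℝ≥0∞) ^ k * J (N u) ∧
      ((∃ w ≠ 0, N u w = 0) → jacW A (fun j => π j ∘ φ) u = 0) := by
  obtain ⟨Q, hQ1, hQ2⟩ := jacW_congr A hA φ K hφ π (fun j => ⟨L, hπ j⟩)
  filter_upwards [hQ1, hQ2 A hA subset_rfl, hN, ae_dn A hA] with u h1 h2 h3 h4
  have h5 : ∀ i w, |fderiv ℝ (Q i) u w| ≤ L * N u w := fun i w =>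
    row_le h4 φ (N u) h3 (π i) L (hπ i) _ (h1 i) w
  set M : Matrix (Fin k) (Fin k) ℝ := Matrix.of fun i j => fderiv ℝ (Q i) u (Pi.single j 1)
    with hM
  have h6 : ∀ i w, (M.mulVec w) i = fderiv ℝ (Q i) u w := by
    intro i w
    have h7 : w = ∑ j, w j • (Pi.single j (1 : ℝ) : Rn k) := by
      ext j
      simp [Finset.sum_apply, Pi.single_apply]
    conv_rhs => rw [h7]
    rw [map_sum]
    simp only [hM, Matrix.mulVec, dotProduct, Matrix.of_apply, map_smul, smul_eq_mul]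
    exact Finset.sum_congr rfl fun j _ => mul_comm _ _
  have h7 : jacW A (fun j => π j ∘ φ) u = M.det := h2
  have h8 : (∃ w ≠ 0, N u w = 0) → jacW A (fun j => π j ∘ φ) u = 0 := by
    rintro ⟨w, hw0, hw⟩
    rw [h7]
    refine Matrix.exists_mulVec_eq_zero_iff.1 ⟨w, hw0, ?_⟩
    ext i
    have := h5 i w
    rw [hw, mul_zero] at this
    rw [h6, abs_nonpos_iff.1 this]
    rfl
  refine ⟨?_, h8⟩
  by_cases hn : IsNrm (N u)
  · rw [h7]
    exact hc (N u) L M hn hL (fun i w => by rw [h6]; exact h5 i w)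
  · have h9 : ∃ w ≠ 0, N u w = 0 := by
      unfold IsNrm at hn
      push Not at hn
      obtain ⟨w, hw1, hw2⟩ := hn
      exact ⟨w, hw2, hw1⟩
    rw [h8 h9]
    simp

end Pool.Agent.W346.LVFpB
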