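import Pool.Agent.W346.LVFpB

set_option autoImplicit false

open MeasureTheory Set Filter Topology Asymptotics
open scoped ENNReal NNReal
open Pool.Agent.W674.LVR Pool.Agent.W674.LVF Pool.Agent.W346.LVFpA Pool.Agent.W346.LVFpB

namespace Pool.Agent.W346.LVFpieces

/-- a common Lipschitz constant -/
lemma common {k : ℕ} {Y : Type} [PseudoMetricSpace Y] (π : Fin k → Y → ℝ) (hπ : ∀ j, Lip (π j)) :
    ∃ L : ℝ≥0, 0 < L ∧ ∀ j, LipschitzWith L (π j) := by
  choose K hK using hπ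
  refine ⟨1 + ∑ j, K j, by positivity, fun j => (hK j).weaken ?_⟩
  exact (Finset.single_le_sum (fun _ _ => bot_le) (Finset.mem_univ j)).trans
    (le_add_of_nonneg_left zero_le_one)

theorem main : S_pieces := by
  intro k m p Y _ e J D T hp he hJ hB hLip hcost hrep
  obtain ⟨hcount, hmA, hlip, hmθ, hmN, hmd⟩ := hLip
  choose K hK using hlip
  choose t ht1 ht2 ht3 ht4 ht5 using fun i => piece_one p hp e he (D.A i) (hmA i) (D.φ i) (K i)
    (hK i) (D.N i) (hmd i)
  have hcostle : ∀ J' : Seminorm ℝ (Rn k) → ℝ≥0∞,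
      ∑' j : D.ι × ℕ, ∫⁻ u in t j.1 j.2, ‖(D.θ j.1 u : ℝ)‖ₑ * J' (D.N j.1 u) ≤ D.cost J' := by
    intro J'
    rw [ENNReal.tsum_prod']
    refine ENNReal.tsum_le_tsum fun i => ?_
    change ∑' n, ∫⁻ u in t i n, ‖(D.θ i u : ℝ)‖ₑ * J' (D.N i u) ≤ _
    rw [← lintegral_iUnion (ht2 i) (ht1 i)]
    exact lintegral_mono_set (iUnion_subset (ht3 i))
  refine ⟨⟨D.ι × ℕ, fun j => t j.1 j.2, fun j => D.φ j.1, fun j => D.θ j.1, fun j => D.N j.1⟩,
    ?_, fun j => ht4 j.1 j.2, ?_, hcostle J, hcostle _⟩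
  · refine ⟨inferInstance, fun j => ht2 j.1 j.2, fun j => ⟨K j.1, (hK j.1).mono (ht3 _ _)⟩,
      fun j => hmθ j.1, fun j w => hmN j.1 w, fun j => ?_⟩
    filter_upwards [ae_restrict_of_ae_restrict_of_subset (ht3 j.1 j.2) (hmd j.1)] with u hu
    exact (show IsLittleO _ _ _ from hu).mono (nhdsWithin_mono _ (ht3 j.1 j.2))
  · intro f π hf hπ
    obtain ⟨L, hL0, hL⟩ := common π hπ
    obtain ⟨⟨Kf, hKf⟩, Cf, hCf⟩ := hf
    obtain ⟨c, hctop, hc⟩ := det_le _ hB
    have hbd := fun i => jac_bound hc (D.A i) (hmA i) (D.φ i) (K i) (hK i) (D.N i) (hmd i) π L hL0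
      hL
    choose Q hQ1 hQ2 using fun i => jacW_congr (D.A i) (hmA i) (D.φ i) (K i) (hK i) π hπ
    set F : D.ι → Rn k → ℝ := fun i u => (D.θ i u : ℝ) * f (D.φ i u) *
      jacW (D.A i) (fun j => π j ∘ D.φ i) u with hF
    -- measurability
    have hFm : ∀ i, AEStronglyMeasurable (F i) (volume.restrict (D.A i)) := by
      intro i
      have h1 : AEStronglyMeasurable (fun u => (D.θ i u : ℝ)) (volume.restrict (D.A i)) :=
        (measurable_from_top.comp (hmθ i)).aestronglyMeasurable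
      have h2 : AEStronglyMeasurable (fun u => f (D.φ i u)) (volume.restrict (D.A i)) :=
        (hKf.continuous.comp_continuousOn (hK i).continuousOn).aestronglyMeasurable (hmA i)
      have h3 : AEStronglyMeasurable (jacW (D.A i) (fun j => π j ∘ D.φ i))
          (volume.restrict (D.A i)) := by
        refine (meas_jac (Q i)).aestronglyMeasurable.congr ?_
        filter_upwards [hQ2 i (D.A i) (hmA i) subset_rfl] with u hu
        exact hu.symm
      exact (h1.mul h2).mul h3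
    -- bound
    set C' : ℝ≥0∞ := ENNReal.ofReal |Cf| * (c * (L : ℝ≥0∞) ^ k) with hC'
    have hC't : C' ≠ ⊤ := ENNReal.mul_ne_top ENNReal.ofReal_ne_top
      (ENNReal.mul_ne_top hctop (ENNReal.pow_ne_top ENNReal.coe_ne_top))
    have hFb : ∀ i, ∀ᵐ u ∂(volume.restrict (D.A i)),
        ‖F i u‖ₑ ≤ C' * (‖(D.θ i u : ℝ)‖ₑ * busemann (D.N i u)) := by
      intro i
      filter_upwards [hbd i] with u hu
      have h1 : ‖f (D.φ i u)‖ₑ ≤ ENNReal.ofReal |Cf| := by
        rw [Real.enorm_eq_ofReal_abs]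
        exact ENNReal.ofReal_le_ofReal ((hCf _).trans (le_abs_self _))
      have h2 : ‖jacW (D.A i) (fun j => π j ∘ D.φ i) u‖ₑ ≤
          c * (L : ℝ≥0∞) ^ k * busemann (D.N i u) := by
        rw [Real.enorm_eq_ofReal_abs]
        exact hu.1
      rw [hF]
      simp only [enorm_mul]
      calc ‖(D.θ i u : ℝ)‖ₑ * ‖f (D.φ i u)‖ₑ * ‖jacW (D.A i) (fun j => π j ∘ D.φ i) u‖ₑ
          ≤ ‖(D.θ i u : ℝ)‖ₑ * ENNReal.ofReal |Cf| *
            (c * (L : ℝ≥0∞) ^ k * busemann (D.N i u)) := by gcongr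
        _ = _ := by rw [hC']; ring
    have hlint : ∀ i, ∫⁻ u in D.A i, ‖F i u‖ₑ ≤
        C' * ∫⁻ u in D.A i, ‖(D.θ i u : ℝ)‖ₑ * busemann (D.N i u) := by
      intro i
      rw [← lintegral_const_mul' _ _ hC't]
      exact lintegral_mono_ae (hFb i)
    have htot : ∑' i, ∫⁻ u in D.A i, ‖F i u‖ₑ ≤ C' * D.cost busemann := by
      unfold Param.cost
      rw [← ENNReal.tsum_mul_left]
      exact ENNReal.tsum_le_tsum hlint
    have htot' : ∑' i, ∫⁻ u in D.A i, ‖F i u‖ₑ < ⊤ :=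
      htot.trans_lt (ENNReal.mul_lt_top hC't.lt_top hcost)
    have hint : ∀ i, IntegrableOn (F i) (D.A i) := by
      intro i
      refine ⟨hFm i, ?_⟩
      exact (ENNReal.le_tsum i).trans_lt htot'
    -- the complement of the pieces does not contribute
    have hcompl : ∀ i, ∫ u in D.A i, F i u = ∫ u in ⋃ n, t i n, F i u := by
      intro i
      refine setIntegral_eq_of_subset_of_ae_sdiff_eq_zero (hmA i).nullMeasurableSet
        (iUnion_subset (ht3 i)) ?_
      have h1 : ∀ᵐ u ∂(volume.restrict (D.A i)), u ∉ ⋃ n, t i n → F i u = 0 := by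
        filter_upwards [hbd i, ht5 i] with u h1 h2 h3
        rw [hF]
        simp only
        rw [h1.2 (h2 h3), mul_zero]
      rw [ae_restrict_iff' (hmA i)] at h1
      filter_upwards [h1] with u hu hu2
      exact hu hu2.1 hu2.2
    have hsum1 : ∀ i, HasSum (fun n => ∫ u in t i n, F i u) (∫ u in D.A i, F i u) := by
      intro i
      rw [hcompl i]
      exact hasSum_integral_iUnion (ht2 i) (ht1 i) ((hint i).mono_set (iUnion_subset (ht3 i)))
    have hsummable : Summable (fun j : D.ι × ℕ => ∫ u in t j.1 j.2, F j.1 u) := by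
      have h1 : ∑' j : D.ι × ℕ, ‖∫ u in t j.1 j.2, F j.1 u‖ₑ < ⊤ := by
        refine lt_of_le_of_lt ?_ htot'
        calc ∑' j : D.ι × ℕ, ‖∫ u in t j.1 j.2, F j.1 u‖ₑ
            ≤ ∑' j : D.ι × ℕ, ∫⁻ u in t j.1 j.2, ‖F j.1 u‖ₑ :=
              ENNReal.tsum_le_tsum fun j => enorm_integral_le_lintegral_enorm _
          _ = ∑' i, ∑' n, ∫⁻ u in t i n, ‖F i u‖ₑ := ENNReal.tsum_prod'
          _ ≤ ∑' i, ∫⁻ u in D.A i, ‖F i u‖ₑ := by
              refine ENNReal.tsum_le_tsum fun i => ?_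
              rw [← lintegral_iUnion (ht2 i) (ht1 i)]
              exact lintegral_mono_set (iUnion_subset (ht3 i))
      refine Summable.of_norm ?_
      refine (ENNReal.summable_toReal h1.ne).congr fun j => ?_
      exact toReal_enorm _
    have hfin : HasSum (fun j : D.ι × ℕ => ∫ u in t j.1 j.2, F j.1 u) (T f π) := by
      have h1 := hsummable.hasSum.prod_fiberwise hsum1
      have h2 := (hrep f π ⟨⟨Kf, hKf⟩, Cf, hCf⟩ hπ).unique h1
      rw [h2]
      exact hsummable.hasSum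
    have hcongr : (fun j : D.ι × ℕ => ∫ u in t j.1 j.2, (D.θ j.1 u : ℝ) * f (D.φ j.1 u) *
        jacW (t j.1 j.2) (fun l => π l ∘ D.φ j.1) u) =
        fun j : D.ι × ℕ => ∫ u in t j.1 j.2, F j.1 u := by
      funext j
      refine integral_congr_ae ?_
      filter_upwards [hQ2 j.1 _ (ht2 j.1 j.2) (ht3 j.1 j.2),
        ae_restrict_of_ae_restrict_of_subset (ht3 j.1 j.2) (hQ2 j.1 _ (hmA j.1) subset_rfl)]
        with u h1 h2
      rw [hF]
      simp only
      rw [h1, h2]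
    have := hfin
    rw [← hcongr] at this
    exact this

end Pool.Agent.W346.LVFpieces
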