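import Pool.Agent.W428.MOT.Stm

set_option autoImplicit false

namespace Pool.Agent.W346.MTCp1

open Pool.Agent.W428.MOT
open Pool.Agent.W426.SM (AffInd gord ford IsRay face)

lemma gord_le {n r : ℕ} (m : Fin r → Fin n → ℕ) (u : Fin n → ℕ) (j : Fin r) :
    gord m u ≤ ∑ i, u i * m j i := by
  unfold gord
  exact ciInf_le (OrderBot.bddBelow _) j

lemma char {n r : ℕ} (m : Fin r → Fin n → ℕ) (u : Fin n → ℕ) (τ : Finset (Fin r)) (g : ℕ)
    (hr : 0 < r) : (amin m u = τ ∧ gord m u = g) ↔
      τ.Nonempty ∧ (∀ j ∈ τ, ∑ i, u i * m j i = g) ∧ ∀ j, j ∉ τ → g < ∑ i, u i * m j i := by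
  have : Nonempty (Fin r) := ⟨⟨0, hr⟩⟩
  constructor
  · rintro ⟨h1, h2⟩
    subst h1 h2
    refine ⟨?_, ?_, ?_⟩
    · obtain ⟨j, hj⟩ := exists_eq_ciInf_of_finite (f := fun j => ∑ i, u i * m j i)
      exact ⟨j, by
        unfold amin
        rw [Finset.mem_filter]
        exact ⟨Finset.mem_univ _, hj⟩⟩
    · intro j hj
      unfold amin at hj
      exact (Finset.mem_filter.1 hj).2
    · intro j hj
      refine lt_of_le_of_ne (gord_le m u j) fun h => hj ?_
      unfold amin
      rw [Finset.mem_filter]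
      exact ⟨Finset.mem_univ _, h.symm⟩
  · rintro ⟨⟨j0, hj0⟩, h2, h3⟩
    have h4 : gord m u = g := by
      refine le_antisymm ?_ ?_
      · rw [← h2 j0 hj0]
        exact gord_le m u j0
      · unfold gord
        refine le_ciInf fun j => ?_
        by_cases hj : j ∈ τ
        · exact (h2 j hj).ge
        · exact (h3 j hj).le
    refine ⟨?_, h4⟩
    ext j
    unfold amin
    rw [Finset.mem_filter, h4]
    constructor
    · rintro ⟨-, h5⟩
      by_contra hj
      exact (h3 j hj).ne h5.symm
    · intro hj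
      exact ⟨Finset.mem_univ _, h2 j hj⟩

/-- membership -/
def InQ {n r : ℕ} (A : Fin n → ℕ) (m : Fin r → Fin n → ℕ) (e : ℕ) (J : Finset (Fin n))
    (τ : Finset (Fin r)) (M : ℕ) (u : Fin n → ℕ) : Prop :=
  Adm J u ∧ amin m u = τ ∧ ford A m e u = M

lemma mul_le_sum {n : ℕ} (u b : Fin n → ℕ) (i : Fin n) (h : 0 < b i) : u i ≤ ∑ i, u i * b i :=
  (Nat.le_mul_of_pos_right _ h).trans
    (Finset.single_le_sum (f := fun i => u i * b i) (fun _ _ => Nat.zero_le _) (Finset.mem_univ i))

lemma gord_le_of_inQ {n r : ℕ} {A : Fin n → ℕ} {m : Fin r → Fin n → ℕ} {e : ℕ}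
    {J : Finset (Fin n)} {τ : Finset (Fin r)} {M : ℕ} {u : Fin n → ℕ} (he : 0 < e)
    (h : InQ A m e J τ M u) : gord m u ≤ M ∧ ∑ i, u i * A i ≤ M := by
  have h1 := h.2.2
  unfold ford at h1
  have h2 : gord m u ≤ e * gord m u := Nat.le_mul_of_pos_left _ he
  constructor <;> omega

lemma nonfree_le {n r : ℕ} {A : Fin n → ℕ} {m : Fin r → Fin n → ℕ} {e : ℕ}
    {J : Finset (Fin n)} {τ : Finset (Fin r)} {M : ℕ} {u : Fin n → ℕ} (hr : 0 < r) (he : 0 < e)
    (h : InQ A m e J τ M u) (i : Fin n) (hi : i ∉ free A m J τ) : u i ≤ M := by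
  obtain ⟨h1, h2⟩ := gord_le_of_inQ he h
  obtain ⟨h3, h4, h5⟩ := (char m u τ _ hr).1 ⟨h.2.1, rfl⟩
  by_cases hJ : i ∈ J
  · unfold free at hi
    rw [Finset.mem_filter, not_and] at hi
    have h6 := hi hJ
    by_cases hA : A i = 0
    · have h7 : ∃ j ∈ τ, m j i ≠ 0 := by
        by_contra hcon
        push Not at hcon
        exact h6 ⟨hA, hcon⟩
      obtain ⟨j, hj, hji⟩ := h7
      have := mul_le_sum u (m j) i (Nat.pos_of_ne_zero hji)
      rw [h4 j hj] at this
      omega
    · exact (mul_le_sum u A i (Nat.pos_of_ne_zero hA)).trans h2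
  · have : u i = 0 := by
      by_contra hne
      exact hJ ((h.1 i).1 hne)
    omega

lemma inv {n r : ℕ} {A : Fin n → ℕ} {m : Fin r → Fin n → ℕ} {e : ℕ}
    {J : Finset (Fin n)} {τ : Finset (Fin r)} {N M : ℕ} {u v : Fin n → ℕ} (hr : 0 < r)
    (he : 0 < e) (hM : M ≤ N) (hmin : ∀ i, min (v i) (N + 1) = min (u i) (N + 1))
    (h : InQ A m e J τ M u) : InQ A m e J τ M v := by
  obtain ⟨h1, h2⟩ := gord_le_of_inQ he h
  obtain ⟨h3, h4, h5⟩ := (char m u τ _ hr).1 ⟨h.2.1, rfl⟩
  have heq : ∀ i, i ∉ free A m J τ → v i = u i := by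
    intro i hi
    have := nonfree_le hr he h i hi
    have := hmin i
    omega
  have hA : ∀ i, v i * A i = u i * A i := by
    intro i
    by_cases hi : i ∈ free A m J τ
    · have := (Finset.mem_filter.1 hi).2.1
      rw [this]
      simp
    · rw [heq i hi]
  have hm : ∀ j ∈ τ, ∀ i, v i * m j i = u i * m j i := by
    intro j hj i
    by_cases hi : i ∈ free A m J τ
    · have := (Finset.mem_filter.1 hi).2.2 j hj
      rw [this]
      simp
    · rw [heq i hi]
  have h6 : amin m v = τ ∧ gord m v = gord m u := by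
    refine (char m v τ _ hr).2 ⟨h3, fun j hj => ?_, fun j hj => ?_⟩
    · rw [← h4 j hj]
      exact Finset.sum_congr rfl fun i _ => hm j hj i
    · by_cases hex : ∃ i, 0 < m j i ∧ N + 1 ≤ v i
      · obtain ⟨i, hi1, hi2⟩ := hex
        have := mul_le_sum v (m j) i hi1
        omega
      · push Not at hex
        have h7 : ∑ i, v i * m j i = ∑ i, u i * m j i := by
          refine Finset.sum_congr rfl fun i _ => ?_
          rcases Nat.eq_zero_or_pos (m j i) with h0 | h0
          · rw [h0]
            simp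
          · have := hex i h0
            have := hmin i
            have h8 : v i = u i := by omega
            rw [h8]
        rw [h7]
        exact h5 j hj
  refine ⟨fun i => ?_, h6.1, ?_⟩
  · have := h.1 i
    have := hmin i
    rw [← h.1 i]
    omega
  · have h8 := h.2.2
    unfold ford at h8 ⊢
    rw [h6.2, Finset.sum_congr rfl fun i _ => hA i]
    exact h8

noncomputable instance {n r : ℕ} (A : Fin n → ℕ) (m : Fin r → Fin n → ℕ) (e : ℕ)
    (J : Finset (Fin n)) (τ : Finset (Fin r)) (M : ℕ) :
    DecidablePred (InQ A m e J τ M) := fun u => by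
  unfold InQ
  infer_instance

lemma step {n r : ℕ} (A : Fin n → ℕ) (m : Fin r → Fin n → ℕ) (e : ℕ) (J : Finset (Fin n))
    (τ : Finset (Fin r)) (hr : 0 < r) (he : 0 < e) (N M : ℕ) (hM : M ≤ N) :
    cp A m e J τ (N + 1) M = cp A m e J τ N M := by
  unfold cp
  rw [← Finset.sum_fiberwise_of_maps_to (g := fun (u : Fin n → ℕ) i => min (u i) (N + 1))
    (t := (Fintype.piFinset fun _ : Fin n => Finset.range (N + 2)).filter
      (fun u => Adm J u ∧ amin m u = τ ∧ ford A m e u = M))]
  · refine Finset.sum_congr rfl fun v hv => ?_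
    rw [Finset.mem_filter, Fintype.mem_piFinset] at hv
    obtain ⟨hv1, hv2⟩ := hv
    have hfib : (((Fintype.piFinset fun _ : Fin n => Finset.range (N + 1 + 2)).filter
        (fun u => Adm J u ∧ amin m u = τ ∧ ford A m e u = M)).filter
        (fun u => (fun i => min (u i) (N + 1)) = v)) =
        Fintype.piFinset fun i => if v i ≤ N then {v i} else {N + 1, N + 2} := by
      ext u
      rw [Finset.mem_filter, Finset.mem_filter, Fintype.mem_piFinset, Fintype.mem_piFinset]
      constructor
      · rintro ⟨⟨h1, h2⟩, h3⟩ i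
        have h4 : min (u i) (N + 1) = v i := congrFun h3 i
        have h5 := Finset.mem_range.1 (h1 i)
        split_ifs with h6
        · rw [Finset.mem_singleton]
          omega
        · rw [Finset.mem_insert, Finset.mem_singleton]
          omega
      · intro h1
        have h2 : ∀ i, min (u i) (N + 1) = v i ∧ u i < N + 1 + 2 := by
          intro i
          have h3 := h1 i
          have h4 := Finset.mem_range.1 (hv1 i)
          split_ifs at h3 with h6
          · rw [Finset.mem_singleton] at h3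
            omega
          · rw [Finset.mem_insert, Finset.mem_singleton] at h3
            omega
        refine ⟨⟨fun i => Finset.mem_range.2 (h2 i).2, ?_⟩, funext fun i => (h2 i).1⟩
        refine inv hr he hM (fun i => ?_) (show InQ A m e J τ M v from hv2)
        have h3 := (h2 i).1
        have h4 := Finset.mem_range.1 (hv1 i)
        omega
    rw [hfib]
    unfold wt
    rw [← Finset.prod_univ_sum (t := fun i => if v i ≤ N then {v i} else {N + 1, N + 2})
      (f := fun i a => if i ∈ free A m J τ then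
        (if a ≤ N + 1 then (1 - Polynomial.X) * Polynomial.X ^ a else Polynomial.X ^ (N + 1 + 1))
      else (Polynomial.X : Polynomial ℤ) ^ a)]
    refine Finset.prod_congr rfl fun i _ => ?_
    by_cases h6 : v i ≤ N
    · have h8 : v i ≤ N + 1 := by omega
      rw [if_pos h6, Finset.sum_singleton, if_pos h6, if_pos h8]
    · rw [if_neg h6, Finset.sum_pair (by omega)]
      have h7 : i ∈ free A m J τ := by
        by_contra hcon
        exact h6 ((nonfree_le hr he (show InQ A m e J τ M v from hv2) i hcon).trans hM)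
      rw [if_pos h7, if_pos h7, if_pos h7, if_neg h6, if_pos le_rfl, if_neg (by omega)]
      ring
  · intro u hu
    rw [Finset.mem_filter, Fintype.mem_piFinset] at hu ⊢
    refine ⟨fun i => Finset.mem_range.2 (by omega), ?_⟩
    exact inv hr he hM (fun i => by omega) (show InQ A m e J τ M u from hu.2)

theorem main : S_CP1 := by
  intro n r A m e J τ hr he N M hM
  obtain ⟨k, rfl⟩ := Nat.exists_eq_add_of_le hM
  induction k with
  | zero => rfl
  | succ k ih =>
    rw [← add_assoc, step A m e J τ hr he (M + k) M (by omega)]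
    exact ih (by omega)

end Pool.Agent.W346.MTCp1
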