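import Pool.Agent.W346.MTCp1

set_option autoImplicit false

namespace Pool.Agent.W346.MTCp2

open Pool.Agent.W428.MOT
open Pool.Agent.W426.SM (AffInd gord ford IsRay face)

lemma wt_small {n r : ℕ} (A : Fin n → ℕ) (m : Fin r → Fin n → ℕ) (J : Finset (Fin n))
    (τ : Finset (Fin r)) (D : ℕ) (u : Fin n → ℕ) (hu : ∀ i, u i ≤ D) :
    wt A m J τ D u = (1 - Polynomial.X) ^ (free A m J τ).card * Polynomial.X ^ (∑ i, u i) := by
  unfold wt
  have h1 : ∀ i, (if i ∈ free A m J τ then
      (if u i ≤ D then (1 - Polynomial.X) * Polynomial.X ^ u i else Polynomial.X ^ (D + 1))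
    else (Polynomial.X : Polynomial ℤ) ^ u i) =
      (if i ∈ free A m J τ then (1 - Polynomial.X) else 1) * Polynomial.X ^ u i := by
    intro i
    rw [if_pos (hu i)]
    split_ifs
    · rfl
    · rw [one_mul]
  rw [Finset.prod_congr rfl fun i _ => h1 i, Finset.prod_mul_distrib, Finset.prod_pow_eq_pow_sum]
  congr 1
  rw [Finset.prod_ite, Finset.prod_const, Finset.prod_const_one, mul_one]
  congr 2
  ext i
  simp

lemma coeff_wt {n r : ℕ} (A : Fin n → ℕ) (m : Fin r → Fin n → ℕ) (J : Finset (Fin n))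
    (τ : Finset (Fin r)) (D d : ℕ) (hd : d ≤ D) (u : Fin n → ℕ) (hu : ∀ i, u i ≤ D + 1) :
    (wt A m J τ D u).coeff d =
      ((1 - Polynomial.X) ^ (free A m J τ).card * Polynomial.X ^ (∑ i, u i) :
        Polynomial ℤ).coeff d := by
  by_cases h : ∀ i, u i ≤ D
  · rw [wt_small A m J τ D u h]
  · push Not at h
    obtain ⟨i, hi⟩ := h
    have hi' : u i = D + 1 := le_antisymm (hu i) hi
    have h1 : (Polynomial.X : Polynomial ℤ) ^ (D + 1) ∣ wt A m J τ D u := by
      unfold wt
      refine dvd_trans ?_ (Finset.dvd_prod_of_mem _ (Finset.mem_univ i))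
      have h3 : ¬ (D + 1 ≤ D) := by omega
      rw [hi']
      by_cases hif : i ∈ free A m J τ
      · rw [if_pos hif, if_neg h3]
      · rw [if_neg hif]
    have h2 : (Polynomial.X : Polynomial ℤ) ^ (D + 1) ∣
        (1 - Polynomial.X) ^ (free A m J τ).card * Polynomial.X ^ (∑ i, u i) := by
      refine dvd_mul_of_dvd_right (pow_dvd_pow _ ?_) _
      rw [← hi']
      exact Finset.single_le_sum (f := fun i => u i) (fun _ _ => Nat.zero_le _)
        (Finset.mem_univ i)
    rw [Polynomial.X_pow_dvd_iff.1 h1 d (by omega), Polynomial.X_pow_dvd_iff.1 h2 d (by omega)]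

theorem main : S_CP2 := by
  intro n r A m e J τ hr he M
  ext d
  set D := max M d with hD
  have hMD : M ≤ D := le_max_left _ _
  have hdD : d ≤ D := le_max_right _ _
  set S := (Fintype.piFinset fun _ : Fin n => Finset.range (D + 2)).filter
    (fun u => Adm J u ∧ amin m u = τ ∧ ford A m e u = M) with hS
  have hSmem : ∀ u, u ∈ S ↔ (∀ i, u i < D + 2) ∧ Adm J u ∧ amin m u = τ ∧ ford A m e u = M := by
    intro u
    rw [hS, Finset.mem_filter, Fintype.mem_piFinset]
    simp only [Finset.mem_range]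
  set PD : Polynomial ℤ := ∑ u ∈ S, Polynomial.X ^ (∑ i, u i) with hPD
  -- step A
  have hA : ∀ k ≤ d, PowerSeries.coeff k (PowerSeries.coeff M
      (Phi (ford A m e) {u | Adm J u ∧ amin m u = τ})) = PD.coeff k := by
    intro k hk
    unfold Phi
    rw [PowerSeries.coeff_mk, PowerSeries.coeff_mk, hPD, Polynomial.finsetSum_coeff]
    simp only [Polynomial.coeff_X_pow]
    rw [Finset.sum_boole]
    norm_cast
    rw [← Set.ncard_coe_finset]
    congr 1
    ext u
    rw [Finset.mem_coe, Finset.mem_filter, hSmem]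
    constructor
    · rintro ⟨⟨h1, h2⟩, h3, h4⟩
      refine ⟨⟨fun i => ?_, h1, h2, h3⟩, h4.symm⟩
      have := Finset.single_le_sum (f := fun i => u i) (fun _ _ => Nat.zero_le _)
        (Finset.mem_univ i)
      omega
    · rintro ⟨⟨h0, h1, h2, h3⟩, h4⟩
      exact ⟨⟨h1, h2⟩, h3, h4.symm⟩
  -- step B
  have hB : PowerSeries.coeff d ((1 - PowerSeries.X) ^ (free A m J τ).card *
      PowerSeries.coeff M (Phi (ford A m e) {u | Adm J u ∧ amin m u = τ})) =
      ((1 - Polynomial.X) ^ (free A m J τ).card * PD).coeff d := by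
    have h1 : (((1 - Polynomial.X) ^ (free A m J τ).card * PD : Polynomial ℤ) :
        PowerSeries ℤ) = (1 - PowerSeries.X) ^ (free A m J τ).card * (PD : PowerSeries ℤ) := by
      rw [Polynomial.coe_mul, Polynomial.coe_pow, Polynomial.coe_sub, Polynomial.coe_one,
        Polynomial.coe_X]
    rw [← Polynomial.coeff_coe, h1, PowerSeries.coeff_mul, PowerSeries.coeff_mul]
    refine Finset.sum_congr rfl fun p hp => ?_
    have hp' := Finset.HasAntidiagonal.mem_antidiagonal.1 hp
    rw [hA p.2 (by omega), Polynomial.coeff_coe]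
  rw [hB, Polynomial.coeff_coe, ← MTCp1.main A m e J τ hr he D M hMD]
  unfold cp
  rw [hPD, Finset.mul_sum, Polynomial.finsetSum_coeff, Polynomial.finsetSum_coeff]
  refine Finset.sum_congr rfl fun u hu => ?_
  rw [hSmem] at hu
  exact (coeff_wt A m J τ D d hdD u (fun i => by have := hu.1 i; omega)).symm

end Pool.Agent.W346.MTCp2
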