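import Pool.Agent.W557.NC.Defs

/-!
# NC-1 (MP_0e6637_co): strictly convex norm from a family of supporting functionals
-/

set_option autoImplicit false
set_option linter.all false

open scoped BigOperators Topology
open Pool.Agent.W557.NC

namespace Pool.Agent.W346.NC1

lemma coord_le (v : V) (c : Fin 3) (b : ZMod 5) : |v c b| ≤ ‖v‖ :=
  (norm_le_pi_norm (v c) b).trans (norm_le_pi_norm v c)

lemma sum15 (r : ℝ) : ∑ _c : Fin 3, ∑ _b : ZMod 5, r = 15 * r := by
  rw [Finset.sum_const, Finset.sum_const, Finset.card_univ, Finset.card_univ, ZMod.card,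
    Fintype.card_fin, nsmul_eq_mul, nsmul_eq_mul]
  push_cast
  ring

lemma l1_le (v : V) : ∑ c, ∑ b, |v c b| ≤ 15 * ‖v‖ := by
  rw [← sum15]
  exact Finset.sum_le_sum fun c _ => Finset.sum_le_sum fun b _ => coord_le v c b

lemma pow4_add (s t D n : ℝ) (hs : |s| ≤ D) (hst : |s + t| ≤ D) (ht : |t| ≤ n) :
    (s + t) ^ 4 ≤ s ^ 4 + 4 * D ^ 3 * n := by
  have hD : 0 ≤ D := (abs_nonneg _).trans hs
  have h1 : (s + t) ^ 4 - s ^ 4 =
      t * ((s + t) ^ 3 + (s + t) ^ 2 * s + (s + t) * s ^ 2 + s ^ 3) := by ring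
  have h2 : |(s + t) ^ 3 + (s + t) ^ 2 * s + (s + t) * s ^ 2 + s ^ 3| ≤ 4 * D ^ 3 := by
    have a1 : |(s + t) ^ 3| ≤ D ^ 3 := by
      rw [abs_pow]; exact pow_le_pow_left₀ (abs_nonneg _) hst 3
    have a2 : |(s + t) ^ 2 * s| ≤ D ^ 3 := by
      rw [abs_mul, abs_pow]
      calc |s + t| ^ 2 * |s| ≤ D ^ 2 * D :=
            mul_le_mul (pow_le_pow_left₀ (abs_nonneg _) hst 2) hs (abs_nonneg _) (by positivity)
        _ = D ^ 3 := by ring
    have a3 : |(s + t) * s ^ 2| ≤ D ^ 3 := by
      rw [abs_mul, abs_pow]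
      calc |s + t| * |s| ^ 2 ≤ D * D ^ 2 :=
            mul_le_mul hst (pow_le_pow_left₀ (abs_nonneg _) hs 2) (by positivity) hD
        _ = D ^ 3 := by ring
    have a4 : |s ^ 3| ≤ D ^ 3 := by
      rw [abs_pow]; exact pow_le_pow_left₀ (abs_nonneg _) hs 3
    have b1 := abs_add_le ((s + t) ^ 3 + (s + t) ^ 2 * s + (s + t) * s ^ 2) (s ^ 3)
    have b2 := abs_add_le ((s + t) ^ 3 + (s + t) ^ 2 * s) ((s + t) * s ^ 2)
    have b3 := abs_add_le ((s + t) ^ 3) ((s + t) ^ 2 * s)
    linarith
  have h3 : (s + t) ^ 4 - s ^ 4 ≤ n * (4 * D ^ 3) := by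
    rw [h1]
    refine (le_abs_self _).trans ?_
    rw [abs_mul]
    exact mul_le_mul ht h2 (abs_nonneg _) ((abs_nonneg _).trans ht)
  linarith

lemma eta_add_le {R : ℝ} (v h : V) (hv : ∀ c b, |v c b| ≤ R) (hh : ‖h‖ ≤ 1) :
    eta (v + h) ≤ eta v + 60 * (R + 1) ^ 3 * ‖h‖ := by
  unfold eta
  have h1 : ∀ c b, ((v + h) c b) ^ 4 ≤ (v c b) ^ 4 + 4 * (R + 1) ^ 3 * ‖h‖ := by
    intro c b
    have e1 := hv c b
    have e2 := coord_le h c b
    refine pow4_add (v c b) (h c b) (R + 1) ‖h‖ (by linarith) ?_ e2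
    have := abs_add_le (v c b) (h c b)
    linarith
  calc ∑ c, ∑ b, ((v + h) c b) ^ 4 ≤ ∑ c, ∑ b, ((v c b) ^ 4 + 4 * (R + 1) ^ 3 * ‖h‖) :=
        Finset.sum_le_sum fun c _ => Finset.sum_le_sum fun b _ => h1 c b
    _ = ∑ c, ∑ b, (v c b) ^ 4 + 60 * (R + 1) ^ 3 * ‖h‖ := by
        simp_rw [Finset.sum_add_distrib]
        rw [← Finset.sum_add_distrib, Finset.sum_add_distrib, sum15]
        ring

lemma eta_convex (v w : V) {a b : ℝ} (ha : 0 ≤ a) (hb : 0 ≤ b) (hab : a + b = 1) :
    eta (a • v + b • w) ≤ a * eta v + b * eta w := by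
  unfold eta
  rw [Finset.mul_sum, Finset.mul_sum, ← Finset.sum_add_distrib]
  refine Finset.sum_le_sum fun c _ => ?_
  rw [Finset.mul_sum, Finset.mul_sum, ← Finset.sum_add_distrib]
  refine Finset.sum_le_sum fun k _ => ?_
  have := (Even.convexOn_pow (𝕜 := ℝ) (n := 4) (by decide)).2 (Set.mem_univ (v c k))
    (Set.mem_univ (w c k)) ha hb hab
  simpa using this

lemma eta_mid (m h : V) : eta m + eta h ≤ (eta (m + h) + eta (m - h)) / 2 := by
  unfold eta
  rw [← Finset.sum_add_distrib, ← Finset.sum_add_distrib, Finset.sum_div]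
  refine Finset.sum_le_sum fun c _ => ?_
  rw [← Finset.sum_add_distrib, ← Finset.sum_add_distrib, Finset.sum_div]
  refine Finset.sum_le_sum fun k _ => ?_
  have : (m + h) c k = m c k + h c k := rfl
  have h2 : (m - h) c k = m c k - h c k := rfl
  rw [this, h2]
  nlinarith [sq_nonneg (m c k * h c k)]

lemma eta_nonneg (v : V) : 0 ≤ eta v :=
  Finset.sum_nonneg fun c _ => Finset.sum_nonneg fun b _ => by positivity

lemma eta_pos {v : V} (hv : v ≠ 0) : 0 < eta v := by
  obtain ⟨c, hc⟩ := Function.ne_iff.1 hv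
  obtain ⟨b, hb⟩ := Function.ne_iff.1 hc
  have h1 : 0 < v c b ^ 4 := by
    have : v c b ≠ 0 := hb
    positivity
  have h2 : v c b ^ 4 ≤ ∑ k, v c k ^ 4 :=
    Finset.single_le_sum (f := fun k => v c k ^ 4) (fun k _ => by positivity) (Finset.mem_univ b)
  have h3 : ∑ k, v c k ^ 4 ≤ eta v :=
    Finset.single_le_sum (f := fun c => ∑ k, v c k ^ 4)
      (fun k _ => Finset.sum_nonneg fun b _ => by positivity) (Finset.mem_univ c)
  linarith

lemma eta_neg (v : V) : eta (-v) = eta v := by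
  unfold eta
  refine Finset.sum_congr rfl fun c _ => Finset.sum_congr rfl fun b _ => ?_
  have : (-v) c b = -(v c b) := rfl
  rw [this]
  ring

lemma eta_cont : Continuous eta := by
  unfold eta
  refine continuous_finsetSum _ fun c _ => continuous_finsetSum _ fun b _ => ?_
  exact ((continuous_apply b).comp (continuous_apply c)).pow 4

section ball

variable {ι : Type} (X : ι → V) (ν : ι → V →ₗ[ℝ] ℝ) (C K : ℝ)

/-- the unit ball -/
def B : Set V := {v | ∀ x, ν x v + C * eta (v - X x) ≤ 1}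

lemma B_convex (hC : 0 < C) : Convex ℝ (B X ν C) := by
  intro v hv w hw a b ha hb hab x
  have h1 := hv x
  have h2 := hw x
  have e : a • v + b • w - X x = a • (v - X x) + b • (w - X x) := by
    have : X x = (a + b) • X x := by rw [hab, one_smul]
    conv_lhs => rw [this]
    module
  rw [e, map_add, map_smul, map_smul, smul_eq_mul, smul_eq_mul]
  have h3 := eta_convex (v - X x) (w - X x) ha hb hab
  have h4 := mul_le_mul_of_nonneg_left h3 hC.le
  have h5 := mul_le_mul_of_nonneg_left h1 ha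
  have h6 := mul_le_mul_of_nonneg_left h2 hb
  nlinarith

lemma B_closed : IsClosed (B X ν C) := by
  have : B X ν C = ⋂ x, {v | ν x v + C * eta (v - X x) ≤ 1} := by
    ext v; simp [B]
  rw [this]
  refine isClosed_iInter fun x => isClosed_le ?_ continuous_const
  exact ((ν x).continuous_of_finiteDimensional).add
    (continuous_const.mul (eta_cont.comp (continuous_id.sub continuous_const)))

lemma B_symm (hs : ∀ x, ∃ y, X y = - X x ∧ ν y = - ν x) {v : V} (hv : v ∈ B X ν C) :
    -v ∈ B X ν C := by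
  intro x
  obtain ⟨y, h1, h2⟩ := hs x
  have h3 := hv y
  rw [h1, h2] at h3
  have e : -v - X x = -(v - -X x) := by abel
  rw [e, eta_neg, map_neg]
  simpa using h3

/-- a point with a uniform gap is in the interior -/
lemma interior_of_gap (hC : 0 < C) (hK : 0 ≤ K) (hν : ∀ x v, |ν x v| ≤ K * ∑ c, ∑ b, |v c b|)
    (hX : ∀ x c b, |X x c b| ≤ K) {m : V} {g : ℝ} (hg : 0 < g)
    (hm : ∀ x, ν x m + C * eta (m - X x) ≤ 1 - g) : m ∈ interior (B X ν C) := by
  rw [mem_interior_iff_mem_nhds, Metric.mem_nhds_iff]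
  set R := ‖m‖ + K with hR
  have hR0 : 0 ≤ R := by positivity
  set D := 15 * K + C * (60 * (R + 1) ^ 3) + 1 with hD
  have hD1 : 1 ≤ D := by
    have : 0 ≤ 15 * K + C * (60 * (R + 1) ^ 3) := by positivity
    linarith
  refine ⟨min 1 (g / D), by positivity, fun u hu x => ?_⟩
  rw [Metric.mem_ball, dist_eq_norm] at hu
  have hu1 : ‖u - m‖ ≤ 1 := (hu.trans_le (min_le_left _ _)).le
  have hu2 : ‖u - m‖ ≤ g / D := (hu.trans_le (min_le_right _ _)).le
  have e1 : u - X x = (m - X x) + (u - m) := by abel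
  have e2 : u = m + (u - m) := by abel
  have hb : ∀ c b, |(m - X x) c b| ≤ R := by
    intro c b
    have : (m - X x) c b = m c b + -(X x c b) := by
      show m c b - X x c b = _
      ring
    rw [this]
    have := abs_add_le (m c b) (-(X x c b))
    rw [abs_neg] at this
    have k1 := coord_le m c b
    have k2 := hX x c b
    linarith
  have h1 := eta_add_le (m - X x) (u - m) hb hu1
  rw [← e1] at h1
  have h2 : ν x u ≤ ν x m + 15 * K * ‖u - m‖ := by
    conv_lhs => rw [e2]
    rw [map_add]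
    have k1 := hν x (u - m)
    have k2 := l1_le (u - m)
    have k3 := le_abs_self (ν x (u - m))
    have k4 := mul_le_mul_of_nonneg_left k2 hK
    linarith
  have h3 := hm x
  have h4 := mul_le_mul_of_nonneg_left h1 hC.le
  have h5 : D * ‖u - m‖ ≤ g := by
    have := (le_div_iff₀ (by linarith : 0 < D)).1 hu2
    linarith
  have h6 : 0 ≤ ‖u - m‖ := norm_nonneg _
  have h7 : D * ‖u - m‖ = 15 * K * ‖u - m‖ + C * (60 * (R + 1) ^ 3) * ‖u - m‖ + ‖u - m‖ := by
    rw [hD]; ring
  nlinarith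

lemma B_bdd [Nonempty ι] (hC : 0 < C) (hK : 0 ≤ K)
    (hν : ∀ x v, |ν x v| ≤ K * ∑ c, ∑ b, |v c b|) (hX : ∀ x c b, |X x c b| ≤ K) :
    Bornology.IsBounded (B X ν C) := by
  obtain ⟨x⟩ := ‹Nonempty ι›
  set a := 1 + (K + 1) / (4 * C) with ha
  have ha1 : 1 ≤ a := by
    have : 0 ≤ (K + 1) / (4 * C) := by positivity
    linarith
  have ha3 : K + 1 ≤ 4 * C * a ^ 3 := by
    have h1 : a ≤ a ^ 3 := by nlinarith [sq_nonneg a, mul_self_nonneg (a - 1)]
    have h2 : (K + 1) / (4 * C) ≤ a ^ 3 := by linarith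
    rw [div_le_iff₀ (by positivity)] at h2
    linarith
  rw [isBounded_iff_forall_norm_le]
  refine ⟨1 + (K + 1) * (15 * K) + 45 * C * a ^ 4 + 15 * K, fun v hv => ?_⟩
  set s := ∑ c, ∑ b, |v c b| with hs
  have hs0 : ‖v‖ ≤ s := by
    rw [pi_norm_le_iff_of_nonneg (Finset.sum_nonneg fun c _ => Finset.sum_nonneg fun b _ =>
      abs_nonneg _)]
    intro c
    rw [pi_norm_le_iff_of_nonneg (Finset.sum_nonneg fun c _ => Finset.sum_nonneg fun b _ =>
      abs_nonneg _)]
    intro b
    have h2 : |v c b| ≤ ∑ k, |v c k| :=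
      Finset.single_le_sum (f := fun k => |v c k|) (fun k _ => abs_nonneg _) (Finset.mem_univ b)
    have h3 : ∑ k, |v c k| ≤ s :=
      Finset.single_le_sum (f := fun c => ∑ k, |v c k|)
        (fun k _ => Finset.sum_nonneg fun b _ => abs_nonneg _) (Finset.mem_univ c)
    exact h2.trans h3
  have h1 := hv x
  have h2 := hν x v
  have h3 := neg_abs_le (ν x v)
  have h4 : C * eta (v - X x) ≤ 1 + K * s := by linarith
  have h5 : 4 * a ^ 3 * (s - 15 * K) - 45 * a ^ 4 ≤ eta (v - X x) := by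
    have k1 : ∀ c b, 4 * a ^ 3 * (|v c b| - K) - 3 * a ^ 4 ≤ ((v - X x) c b) ^ 4 := by
      intro c b
      have e : (v - X x) c b = v c b - X x c b := rfl
      rw [e]
      set t := |v c b - X x c b| with ht
      have t0 : 0 ≤ t := abs_nonneg _
      have t1 : (v c b - X x c b) ^ 4 = t ^ 4 := by
        rw [ht]; exact (Even.pow_abs (by decide) _).symm
      have t2 : |v c b| - K ≤ t := by
        have := abs_sub_abs_le_abs_sub (v c b) (X x c b)
        have := hX x c b
        linarith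
      rw [t1]
      have t3 : 4 * a ^ 3 * t - 3 * a ^ 4 ≤ t ^ 4 := by
        have : t ^ 4 - 4 * a ^ 3 * t + 3 * a ^ 4 = (t - a) ^ 2 * ((t + a) ^ 2 + 2 * a ^ 2) := by
          ring
        have : 0 ≤ (t - a) ^ 2 * ((t + a) ^ 2 + 2 * a ^ 2) := by positivity
        linarith
      have t4 : 4 * a ^ 3 * (|v c b| - K) ≤ 4 * a ^ 3 * t :=
        mul_le_mul_of_nonneg_left t2 (by positivity)
      linarith
    calc 4 * a ^ 3 * (s - 15 * K) - 45 * a ^ 4
        = ∑ c : Fin 3, ∑ b : ZMod 5, (4 * a ^ 3 * (|v c b| - K) - 3 * a ^ 4) := by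
          simp_rw [Finset.sum_sub_distrib, ← Finset.mul_sum, Finset.sum_sub_distrib]
          rw [sum15, sum15]
          ring
      _ ≤ eta (v - X x) := Finset.sum_le_sum fun c _ => Finset.sum_le_sum fun b _ => k1 c b
  have h6 := mul_le_mul_of_nonneg_left h5 hC.le
  by_cases h7 : s ≤ 15 * K
  · have : 0 ≤ 1 + (K + 1) * (15 * K) + 45 * C * a ^ 4 := by positivity
    linarith
  · push Not at h7
    have h8 : (K + 1) * (s - 15 * K) ≤ 4 * C * a ^ 3 * (s - 15 * K) :=
      mul_le_mul_of_nonneg_right ha3 (by linarith)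
    have h9 : C * (4 * a ^ 3 * (s - 15 * K) - 45 * a ^ 4) =
      4 * C * a ^ 3 * (s - 15 * K) - 45 * C * a ^ 4 := by ring
    rw [h9] at h6
    nlinarith

end ball

/-- the space with the new norm -/
def WW (S : Set V) : Type := V

instance (S : Set V) : AddCommGroup (WW S) := inferInstanceAs (AddCommGroup V)
instance (S : Set V) : Module ℝ (WW S) := inferInstanceAs (Module ℝ V)
noncomputable instance (S : Set V) : Norm (WW S) := ⟨fun v => gauge S (v : V)⟩

theorem main : S_norm := by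
  intro ι _ X ν C K hC h1 h2 h3 h4 h5 h6
  have hK : 0 ≤ K := by
    obtain ⟨x⟩ := ‹Nonempty ι›
    exact (abs_nonneg _).trans (h5 x 0 0)
  set S := B X ν C with hS
  have hconv : Convex ℝ S := B_convex X ν C hC
  have hclosed : IsClosed S := B_closed X ν C
  have hsymm : ∀ v ∈ S, -v ∈ S := fun v hv => B_symm X ν C h6 hv
  have hbdd : Bornology.IsBounded S := B_bdd X ν C K hC hK h4 h5
  have h0 : (0 : V) ∈ interior S := by
    refine interior_of_gap X ν C K hC hK h4 h5 (g := 1 / 2) (by norm_num) fun x => ?_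
    rw [map_zero, zero_sub, eta_neg]
    have := h3 x
    linarith
  have hnhds : S ∈ 𝓝 (0 : V) := mem_interior_iff_mem_nhds.1 h0
  have habs : Absorbent ℝ S := absorbent_nhds_zero hnhds
  have hvN : Bornology.IsVonNBounded ℝ S := NormedSpace.isVonNBounded_of_isBounded ℝ hbdd
  have hle : ∀ v : V, gauge S v ≤ 1 ↔ v ∈ S := by
    intro v
    rw [gauge_le_one_iff_mem_closure hconv hnhds, hclosed.closure_eq]
  have hlt : ∀ v : V, gauge S v < 1 ↔ v ∈ interior S := fun v =>
    gauge_lt_one_iff_mem_interior hconv hnhds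
  have hsmul : ∀ (r : ℝ) (v : V), gauge S (r • v) = |r| * gauge S v := by
    intro r v
    rcases le_total 0 r with hr | hr
    · rw [gauge_smul_of_nonneg hr, smul_eq_mul, abs_of_nonneg hr]
    · have e : r • v = -((-r) • v) := by simp
      rw [e, gauge_neg hsymm, gauge_smul_of_nonneg (by linarith), smul_eq_mul, abs_of_nonpos hr]
  have hstrict : ∀ v w : V, v ∈ S → w ∈ S → v ≠ w → gauge S (v + w) ≠ 2 := by
    intro v w hv' hw' hvw
    set m : V := (1 / 2 : ℝ) • (v + w) with hm
    set h : V := (1 / 2 : ℝ) • (v - w) with hh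
    have hne : h ≠ 0 := by
      intro h0
      rw [hh, smul_eq_zero] at h0
      rcases h0 with h0 | h0
      · norm_num at h0
      · exact hvw (sub_eq_zero.1 h0)
    have hmi : m ∈ interior S := by
      refine interior_of_gap X ν C K hC hK h4 h5 (g := C * eta h)
        (mul_pos hC (eta_pos hne)) fun x => ?_
      have e1 := hv' x
      have e2 := hw' x
      have e3 := eta_mid (m - X x) h
      have e4 : m - X x + h = v - X x := by
        rw [hm, hh]
        module
      have e5 : m - X x - h = w - X x := by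
        rw [hm, hh]
        module
      rw [e4, e5] at e3
      have e6 : ν x m = (ν x v + ν x w) / 2 := by
        rw [hm, map_smul, map_add, smul_eq_mul]; ring
      rw [e6]
      have e7 := mul_le_mul_of_nonneg_left e3 hC.le
      linarith
    have hm1 := (hlt m).2 hmi
    rw [hm, hsmul, abs_of_pos (by norm_num)] at hm1
    intro h2
    rw [h2] at hm1
    norm_num at hm1
  have core : NormedSpace.Core ℝ (WW S) :=
    { norm_nonneg := fun v => gauge_nonneg _
      norm_smul := fun r v => hsmul r v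
      norm_triangle := fun v w => gauge_add_le hconv habs v w
      norm_eq_zero_iff := fun v => gauge_eq_zero habs hvN }
  letI i1 : NormedAddCommGroup (WW S) := NormedAddCommGroup.ofCore core
  letI i2 : NormedSpace ℝ (WW S) := NormedSpace.ofCore core
  have hnorm : ∀ v : WW S, ‖v‖ = gauge S (v : V) := fun v => rfl
  have i3 : FiniteDimensional ℝ (WW S) := inferInstanceAs (Module.Finite ℝ V)
  have i4 : StrictConvexSpace ℝ (WW S) := by
    refine StrictConvexSpace.of_norm_add_ne_two fun v w hv hw hvw => ?_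
    have hv' : (v : V) ∈ S := (hle v).1 (by rw [← hnorm]; exact hv.le)
    have hw' : (w : V) ∈ S := (hle w).1 (by rw [← hnorm]; exact hw.le)
    exact hstrict v w hv' hw' hvw
  refine ⟨WW S, i1, i2, i3, i4, LinearEquiv.refl ℝ V, fun x => ?_⟩
  show gauge S (X x) = 1
  apply le_antisymm
  · rw [hle]
    intro y
    exact h2 y x
  · by_contra hcon
    push Not at hcon
    obtain ⟨b, hb0, hb1, y, hy, hxy⟩ := exists_lt_of_gauge_lt habs hcon
    have e1 := h1 x
    have hxy' : b • y = X x := hxy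
    rw [← hxy', map_smul, smul_eq_mul] at e1
    have e2 := hy x
    have e3 : 0 ≤ C * eta (y - X x) := mul_nonneg hC.le (eta_nonneg _)
    nlinarith

end Pool.Agent.W346.NC1
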